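import Pool.Agent.Lib.SE.Y.Spec
import Pool.Agent.Lib.SE.Big.cCj
import Pool.Agent.Lib.SE.Big.cBa2
import Pool.Agent.Lib.SE.Big.eB

/-!
# PROJECT SE-Y, module kB2: the Baire argument in two variables
-/

set_option autoImplicit false

open Module MeasureTheory Topology

noncomputable section

namespace SEY

open HC HC.E HC.SE SEB SEQ SEG

namespace kB2_aux

open cCj_aux

/-- the link in terms of the matrices -/
theorem lk_iff (hPv : S_cPv) (hJx : S_cJx) {m m' r : ℕ} {b b' : Fin (r + 1) → ℕ} {u u' : ℕ}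
    (hu : sg m r b u + sg m r b (m - u) = r) (hv : sg m' r b' u' + sg m' r b' (m' - u') = r)
    {s s' : Fin (r + 1) → ℂ} (h1 : Admc m b u s) (h2 : NDc m b u s) (h3 : Admc m' b' u' s')
    (h4 : NDc m' b' u' s') (θ : Module.End ℂ (Fin r → ℂ)) :
    (∃ J J', IsJc m b u s J ∧ IsJc m' b' u' s' J' ∧ θ * J = J' * θ) ↔
      LinearMap.toMatrix' θ * JM hu s - JM hv s' * LinearMap.toMatrix' θ = 0 := by
  have i1 := JM_isJ hPv hu h1 ((nd_iff hPv hu h1).1 h2)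
  have i2 := JM_isJ hPv hv h3 ((nd_iff hPv hv h3).1 h4)
  obtain ⟨J1, -, u1, -⟩ := hJx m r b u s h1 h2
  obtain ⟨J2, -, u2, -⟩ := hJx m' r b' u' s' h3 h4
  have key : θ * Matrix.toLin' (JM hu s) = Matrix.toLin' (JM hv s') * θ ↔
      LinearMap.toMatrix' θ * JM hu s - JM hv s' * LinearMap.toMatrix' θ = 0 := by
    rw [sub_eq_zero, ← LinearMap.toMatrix'.injective.eq_iff, LinearMap.toMatrix'_mul,
      LinearMap.toMatrix'_mul, LinearMap.toMatrix'_toLin', LinearMap.toMatrix'_toLin']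
  rw [← key]
  constructor
  · rintro ⟨J, J', hJ, hJ', h⟩
    rw [u1 _ i1, u2 _ i2, ← u1 J hJ, ← u2 J' hJ']
    exact h
  · intro h
    exact ⟨_, _, i1, i2, h⟩

/-- the pairs linked by `B` -/
def XX (m m' : ℕ) {r : ℕ} (b b' : Fin (r + 1) → ℕ) (u u' : ℕ) (B : Module.End ℂ (Fin r → ℂ)) :
    Set ((Fin (r + 1) → ℂ) × (Fin (r + 1) → ℂ)) :=
  {x | ((Admc m b u x.1 ∧ NDc m b u x.1) ∧ (Admc m' b' u' x.2 ∧ NDc m' b' u' x.2)) ∧
    ∃ J J', IsJc m b u x.1 J ∧ IsJc m' b' u' x.2 J' ∧ B * J = J' * B}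

theorem nd (hkN : S_kN) (hK : S_cKap) (hPv : S_cPv) (hC : S_cC) (hJx : S_cJx) (hCj : S_cCj)
    {m m' r : ℕ} {b b' : Fin (r + 1) → ℕ} {u u' : ℕ} (hp : 0 < sg m' r b' u')
    (hq : 0 < sg m' r b' (m' - u')) (B : Module.End ℂ (Fin r → ℂ)) (hB : Function.Injective B) :
    IsNowhereDense (XX m m' b b' u u' B) := by
  by_cases hA : ∃ x : (Fin (r + 1) → ℂ) × (Fin (r + 1) → ℂ), x ∈ XX m m' b b' u u' B
  swap
  · have h1 : XX m m' b b' u u' B = ∅ := by
      ext s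
      simp only [Set.mem_empty_iff_false, iff_false]
      exact fun h => hA ⟨s, h⟩
    rw [h1]
    exact isNowhereDense_empty
  obtain ⟨x0, ⟨hx0, hx0'⟩, -⟩ := hA
  have hu : sg m r b u + sg m r b (m - u) = r := tSg m r _ b hx0.1.2.1 u hx0.1.2.2.1 hx0.1.2.2.2
  have hv : sg m' r b' u' + sg m' r b' (m' - u') = r :=
    tSg m' r _ b' hx0'.1.2.1 u' hx0'.1.2.2.1 hx0'.1.2.2.2
  set O : Set (Fin (r + 1) → ℂ) := {s | Admc m b u s ∧ NDc m b u s} with hOd
  set O' : Set (Fin (r + 1) → ℂ) := {s | Admc m' b' u' s ∧ NDc m' b' u' s} with hOd'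
  have hO : IsOpen O := (hCj m r b u).1
  have hO' : IsOpen O' := (hCj m' r b' u').1
  have hOp : IsOpen (O ×ˢ O') := hO.prod hO'
  set F : (Fin (r + 1) → ℂ) × (Fin (r + 1) → ℂ) → Matrix (Fin r) (Fin r) ℂ := fun x =>
    LinearMap.toMatrix' B * JM hu x.1 - JM hv x.2 * LinearMap.toMatrix' B with hFd
  have hF : ContinuousOn F (O ×ˢ O') := by
    have j1 : ContinuousOn (fun x : (Fin (r + 1) → ℂ) × (Fin (r + 1) → ℂ) => JM hu x.1)
        (O ×ˢ O') := (eB_aux.JM_cont hK hPv hC hu).comp continuousOn_fst fun x hx => hx.1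
    have j2 : ContinuousOn (fun x : (Fin (r + 1) → ℂ) × (Fin (r + 1) → ℂ) => JM hv x.2)
        (O ×ˢ O') := (eB_aux.JM_cont hK hPv hC hv).comp continuousOn_snd fun x hx => hx.2
    exact (continuousOn_const.mul j1).sub (j2.mul continuousOn_const)
  have hX : ∀ x ∈ O ×ˢ O', (x ∈ XX m m' b b' u u' B ↔ F x = 0) := by
    intro x hx
    rw [hFd]
    rw [← lk_iff hPv hJx hu hv hx.1.1 hx.1.2 hx.2.1 hx.2.2 B]
    exact ⟨fun h => h.2, fun h => ⟨⟨hx.1, hx.2⟩, h⟩⟩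
  unfold IsNowhereDense
  by_contra hne
  obtain ⟨x₀, hx₀⟩ := Set.nonempty_iff_ne_empty.mpr hne
  have hWo : IsOpen (interior (closure (XX m m' b b' u u' B))) := isOpen_interior
  obtain ⟨x₂, k1, k2⟩ := mem_closure_iff.mp (interior_subset hx₀) _ hWo hx₀
  have hWO : IsOpen (interior (closure (XX m m' b b' u u' B)) ∩ O ×ˢ O') := hWo.inter hOp
  have hz : ∀ x ∈ interior (closure (XX m m' b b' u u' B)) ∩ O ×ˢ O', F x = 0 := by
    intro x hx
    by_contra hne'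
    have hcont : ContinuousAt F x := hF.continuousAt (hOp.mem_nhds hx.2)
    obtain ⟨V, hV1, hV2, hV3⟩ := eventually_nhds_iff.mp (hcont.eventually_ne hne')
    obtain ⟨x', h5, h6⟩ := mem_closure_iff.mp (interior_subset hx.1) V hV2 hV3
    exact hV1 x' h5 ((hX x' ⟨h6.1.1, h6.1.2⟩).1 h6)
  obtain ⟨U, U', hUo, hUo', hxU, hxU', hUU⟩ := isOpen_prod_iff.1 hWO x₂.1 x₂.2
    ⟨k1, ⟨k2.1.1, k2.1.2⟩⟩
  -- the inverse of `B`
  set e : (Fin r → ℂ) ≃ₗ[ℂ] (Fin r → ℂ) := LinearEquiv.ofInjectiveEndo B hB with he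
  set Bi : Module.End ℂ (Fin r → ℂ) := e.symm.toLinearMap with hBi
  have hBB : B * Bi = 1 := by
    refine LinearMap.ext fun v => ?_
    rw [Module.End.mul_apply, Module.End.one_apply]
    have h1 : B (e.symm v) = e (e.symm v) := rfl
    rw [hBi]
    show B (e.symm v) = v
    rw [h1, LinearEquiv.apply_symm_apply]
  obtain ⟨J1, hJ1, u1, -⟩ := hJx m r b u x₂.1 k2.1.1.1 k2.1.1.2
  have hU'O : ∀ s' ∈ U', (x₂.1, s') ∈ interior (closure (XX m m' b b' u u' B)) ∩ O ×ˢ O' :=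
    fun s' hs' => hUU ⟨hxU, hs'⟩
  obtain ⟨s', hs', J', hJ', hns⟩ := hkN m' r b' u' U' hp hq hUo' ⟨x₂.2, hxU'⟩
    (fun s' hs' => (hU'O s' hs').2.2) (B * J1 * Bi)
  have h7 := hU'O s' hs'
  obtain ⟨-, J, J'', hJ, hJ'', h8⟩ := (hX _ h7.2).2 (hz _ h7)
  obtain ⟨J2, -, u2, -⟩ := hJx m' r b' u' s' h7.2.2.1 h7.2.2.2
  apply hns
  have h9 : J' = B * J1 * Bi := by
    have h10 : J = J1 := u1 J hJ
    have h11 : J'' = J' := by rw [u2 J'' hJ'', u2 J' hJ']
    rw [← h10, h8, h11, mul_assoc, hBB, mul_one]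
  rw [h9]
  exact Submodule.mem_span_singleton_self _

end kB2_aux

open kB2_aux

/-- Module kB2: the Baire argument in two variables. -/
theorem tkB2 : S_kN → S_cKap → S_cPv → S_cC → S_cI → S_cJx → S_cCj → S_kB2 := by
  intro hkN hK hPv hC _ hJx hCj m m' r b b' u u' hp hq
  have : Countable (cBa2_aux.Al r) := (cBa2_aux.countable_Al r).to_subtype
  have hMe : IsMeagre (⋃ θ : cBa2_aux.Al r,
      {x : (Fin (r + 1) → ℂ) × (Fin (r + 1) → ℂ) |
        Function.Injective (θ : Module.End ℂ (Fin r → ℂ)) ∧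
          x ∈ XX m m' b b' u u' (θ : Module.End ℂ (Fin r → ℂ))}) := by
    refine isMeagre_iUnion fun θ => ?_
    by_cases hi : Function.Injective (θ : Module.End ℂ (Fin r → ℂ))
    · refine (nd (m := m) (b := b) (u := u) hkN hK hPv hC hJx hCj hp hq _ hi).isMeagre.mono ?_
      rintro s ⟨_, hs⟩
      exact hs
    · have h1 : {x : (Fin (r + 1) → ℂ) × (Fin (r + 1) → ℂ) |
          Function.Injective (θ : Module.End ℂ (Fin r → ℂ)) ∧
            x ∈ XX m m' b b' u u' (θ : Module.End ℂ (Fin r → ℂ))} = ∅ := by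
        ext s
        constructor
        · rintro ⟨h, _⟩
          exact absurd h hi
        · intro h
          exact absurd h (Set.notMem_empty s)
      rw [h1]
      exact IsMeagre.empty
  refine hMe.mono ?_
  rintro x ⟨h1, h2, B, h3, J, J', h4, h5, h6⟩
  exact Set.mem_iUnion.2 ⟨⟨B, h3.2⟩, h3.1, ⟨h1, h2⟩, J, J', h4, h5, h6⟩

end SEY
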