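import Pool.Agent.Lib.SE.G.PTw
import Pool.Agent.Lib.SE.Big.Gw

/-!
# PROJECT SE-Y: jointly very general branch points (helper64)

Two cyclic covers with very general branch points `(s, s')` (outside a meagre set of the product) are
independent, for ALL exponents; and a very general cyclic cover is independent of any fixed good factor.

Every module: file `SE/Y/kXyz.lean`, `theorem tkXyz : S_kXyz`, namespace `SEY` (after it
`open HC HC.E HC.SE SEB SEQ SEG`), import `Pool.Agent.Lib.SE.Y.Spec` and the proved modules you want. If the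
docstring says `From S_A` the theorem is `tXyz : S_A → S_Xyz`. Auxiliary lemmas in `namespace SEY.kXyz_aux`. All modules
`S_c..`, `S_e..`, `S_f..`, `S_g..` of SE/Big (VG3, VG4, VG6) and `S_Xyz` of SE/Q, SE/G are proved (`tXyz`): import
them.
-/

set_option autoImplicit false

open Module MeasureTheory Topology

noncomputable section

namespace SEY

open HC HC.E HC.SE SEB SEQ SEG

/-! ## Coordinates -/

/-- The vectors `v_k` give coordinates on all eigenspaces `Ws D u`, and the rational endomorphisms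
commuting with `Z` have matrices in `ℚ[Z]`. -/
structure Crd {T : AV} {m : ℕ} (D : Cyc T m) {r : ℕ} (v : Fin r → T.V) : Prop where
  inj : ∀ u, ∀ a ∈ Ws D u, (∀ k, a (v k) = 0) → a = 0
  mat : ∀ X : Module.End ℝ T.V, RatEnd T X → (∀ w, X (D.Z w) = D.Z (X w)) →
    ∃ (N : ℤ) (x : Fin r → Fin r → Polynomial ℤ), N ≠ 0 ∧
      ∀ k, N • X (v k) = ∑ j, (Polynomial.aeval D.Z (x k j)) (v j)

/-- `J` is the multiplication by `i` on `Ws D u` in the coordinates. -/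
def IsJv {T : AV} {m : ℕ} (D : Cyc T m) {r : ℕ} (v : Fin r → T.V) (u : (ZMod m)ˣ)
    (J : Module.End ℂ (Fin r → ℂ)) : Prop :=
  ∀ a ∈ Ws D u, J (fun k => a (v k)) = fun k => a (Complex.I • v k)

/-- `B` has algebraic entries and is injective. -/
def AlgB {r : ℕ} (B : Module.End ℂ (Fin r → ℂ)) : Prop :=
  Function.Injective B ∧ ∀ k l, IsAlgebraic ℚ (B (Pi.single k 1) l)

/-- The pair is independent. -/
def Ind {T T' : AV} {m m' : ℕ} (D : Cyc T m) (D' : Cyc T' m') : Prop :=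
  ∀ h, HLie2 D D' h → ∀ s t, Hit2 D D' h s t

/-- COORDINATES EXIST. PROOF. `Q` = the `ℚ`-span of `T.L` (`dim_ℚ Q = 2 dim_ℂ T.V`), stable under `D.Z`; it is a vector
space over `K = ℚ[D.Z] ≅ ℚ(ζ_m)` (the minimal polynomial of `D.Z` on `Q` is the cyclotomic polynomial, irreducible), of
dimension `r`. `v_k` = a `K`-basis of `Q` in `T.L`. `mat`: `X (v k) ∈ Q`. `inj`: every `w ∈ T.L` is `(1/N) ∑_j f_j(Z) v_j`, and `a ∈ Ws D u` satisfies
`a (Z w) = ζ^u a(w)` (`pre`), so `a(w) = 0`, and `T.L` spans `T.V` over `ℝ`. (Alternatively: choose vectors `v_k ∈ T.L` one by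
one, not in the `ℚ[Z]`-span of the previous ones. Compare SE/Big/EB.lean, SE/Big/Per.lean.) -/
def S_kV : Prop :=
  ∀ (T : AV) (m r : ℕ) (D : Cyc T m), 3 ≤ m → 2 * finrank ℂ T.V = r * Nat.totient m →
    ∃ v : Fin r → T.V, Crd D v

/-- `J` IN COORDINATES. PROOF. `Φ(a) = (a(v_k))_k : Ws D u → ℂ^r` is injective (`inj`) and `dim Ws D u = r` (`tDim` or
`dim_all`), so bijective; `Ws D u` is stable under `a ↦ a ∘ i = pre (mulI T) a` (`Z` is complex linear); `J = Φ (∘ i) Φ⁻¹`. -/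
def S_kI : Prop :=
  ∀ (T : AV) (m r : ℕ) (D : Cyc T m), 3 ≤ m → 2 * finrank ℂ T.V = r * Nat.totient m →
    ∀ v : Fin r → T.V, Crd D v → ∀ u, ∃ J, IsJv D v u J ∧ ∀ J', IsJv D v u J' → J' = J

/-- COORDINATES OF THE COVERS. PROOF. `N₀` = the union of `{s | Inc s ∧ ¬ Nj (mu m b u) s}` for the units `u` and
`{s | Inc s ∧ ¬ AInd (..)}` for one unit `u` with `0 < sg m r b u`, meagre by `S_cN`, `S_cAI` (as in `fullIX` in
SE/Big/Asm9.lean, if there is `s` with `Inc s`, `IsCov m s b`; otherwise `N₀ = ∅`). For `s ∉ N₀`: `v` from `S_cLoop`; `Crd`: `S_EB` for the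
form `B` of `N.dif u .. 0` (see `fullIX`: `hAI2`, `hinj`, `hmat`); `S_cHod`, `S_cHit` give `NDc`. `IsJv D v u J → IsJc m b u s J`: for
`deg f < sg u` there is `a ∈ Ws10 D u` with `a(v_k) = Pc f k`; `a` is complex linear (`Ws10`), so `J (Pc f) = i Pc f`. For
`deg g < sg (m - u)`: `a ∈ Ws10 D (-u)` with `a(v_k) = Pc (m - u) g k` (`(-u).val = m - u.val`), the complex conjugate of `a` is in
`Ws D u`, with values `star (Pc (m - u) g)`, and `(conj a)(i v) = - i (conj a)(v)`. -/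
def S_kC : Prop :=
  ∀ (m r : ℕ) (b : Fin (r + 1) → ℕ), 1 ≤ r → (∃ u < m, u.Coprime m ∧ 0 < sg m r b u) →
    ∃ N₀ : Set (Fin (r + 1) → ℂ), IsMeagre N₀ ∧ ∀ s, Inc s → s ∉ N₀ → IsCov m s b →
      ∀ (T : AV) (N : New T m s b) (D : Cyc T m), D.Z = N.Z → ∃ v : Fin r → T.V, Crd D v ∧
        ∀ u : (ZMod m)ˣ, NDc m b (u : ZMod m).val s ∧
          ∀ J, IsJv D v u J → IsJc m b (u : ZMod m).val s J

/-! ## Links -/

/-- COORDINATES OF A LINK. PROOF. As `SEB.S_fA` (SE/Big/fA.lean; VG4.lean) for two varieties.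
`Φ(a) = (a(v_k))_k : Ws D s → ℂ^r`, `Φ' : Ws D' t → ℂ^r` are bijective. For `X` rational commuting with `Z`: `Φ ∘ pre X = X̂ ∘ Φ`, `X̂` with
algebraic entries (`Crd.mat`; `a(f(Z) v) = f(ζ^s) a(v)`), similarly for `Z'`. `θ' = Φ' θ Φ⁻¹` intertwines `Ŷ_1` and `Ŷ_2` for
`Y = (Y_1, Y_2) ∈ Com2 h` and the two `J`. The matrices `B` with `B Ŷ_1 = Ŷ_2 B` for all `Y ∈ Com2 h` are the solutions of a system of
linear equations with algebraic coefficients; it has the solution `θ' ≠ 0`, so a solution `B ≠ 0` with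
algebraic entries. `B θ'⁻¹` commutes with the `Ŷ_2`, whose complex span contains all traceless matrices
(`GFw.hit` for `Prod.snd '' h`, `tPrj`), so it is a scalar, not `0`: `B = c θ'`. -/
def S_kA : Prop :=
  ∀ (T T' : AV) (m m' r : ℕ) (D : Cyc T m) (D' : Cyc T' m'), GFw D r → GFw D' r →
    ∀ (v : Fin r → T.V) (v' : Fin r → T'.V), Crd D v → Crd D' v' →
    ∀ h : Set (Pr2 T T'), HLie2 D D' h → ∀ s t, ∀ θ : Ws D s ≃ₗ[ℂ] Ws D' t, Itw h θ →
    (∀ a b : Ws D s, (b : Frm T) = pre (mulI T) (a : Frm T) →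
      (θ b : Frm T') = pre (mulI T') (θ a : Frm T')) →
    ∃ B : Module.End ℂ (Fin r → ℂ), AlgB B ∧
      ∀ J J', IsJv D v s J → IsJv D' v' t J' → B * J = J' * B

/-- FROM DEPENDENCE TO LINKS. PROOF. As in `SEG.tPPw` (SE/G/PPw.lean): `tGt2` gives `Lnk D D' h s t`; `tLrg`: `r = r'` and links for all
Galois conjugates; choose `ρ` (`M = m m'`; the units modulo `M` map onto the units modulo `m'`) with `rho hM' ρ t = w`;
`tTh0g`: `θ : Ws D s₁ ≃ Ws D' w` or `Ws D s₁ ≃ Ws D' (-w)` with `Itw`; in the second case `tGtr` with a unit `ρ` which is `-1` modulo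
`m'`. The last statement: as `SEG.tJc` (SE/G/Jc.lean): `θ J θ⁻¹ - J'` commutes with all traceless operators of `Ws D' w`, so it
is a scalar `c`, `c (2 J' + c) = 0`, and `J'` is not a scalar on `Ws D' w` (it has the eigenvalues `i`, `-i`: `0 < D'.p w < r`, `tTrJ` for the
trace `i (2 p - r)`): `c = 0`. -/
def S_kT : Prop :=
  ∀ (T T' : AV) (m m' r r' : ℕ) (D : Cyc T m) (D' : Cyc T' m'), GFw D r → GFw D' r' →
    ∀ h : Set (Pr2 T T'), HLie2 D D' h → ∀ s t, ¬ Hit2 D D' h s t → r = r' ∧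
    ∀ w : (ZMod m')ˣ, 0 < D'.p w → D'.p w < r' →
      ∃ (s₁ : (ZMod m)ˣ) (θ : Ws D s₁ ≃ₗ[ℂ] Ws D' w), Itw h θ ∧
        ∀ a b : Ws D s₁, (b : Frm T) = pre (mulI T) (a : Frm T) →
          (θ b : Frm T') = pre (mulI T') (θ a : Frm T')

/-! ## Period domains -/

/-- `J(s)` IS NOT CONSTANT. From `S_cN`, `S_cKap`, `S_cPv`, `S_cJx`, `S_cDj`, `S_cRk1`, `S_Sg`. PROOF. Suppose `J(s) ∈ ℂ J₀` for all `s ∈ U`. Some `s ∈ U` has
`Nj (mu m b u) s` (`S_cN`, Baire, as in SE/Big/cBa2.lean). `S_cJx`: `J = J(s) = c J₀`, `J² = -1`, so `c ≠ 0`. `S_cRk1` for `s`: `ξ_0 ≠ 0` (last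
statement with `c = (1, 0, …)`, `1 ≤ sg (m - u)`), `J ξ_0 = - i ξ_0`, and a polynomial `a`. `S_cDj` for `g = ℂ J₀` gives `D ∈ ℂ J₀`,
`IsDJc m b u s J a D`, so `D = c' J`. `D (Pc 1) = ξ_0` (`f = 1`, `0 < sg u`) and `D (Pc 1) = c' J (Pc 1) = c' i Pc 1`: `ξ_0` is in the
eigenspaces of `J` for `i` and `-i`, so `ξ_0 = 0`. -/
def S_kN : Prop :=
  ∀ (m r : ℕ) (b : Fin (r + 1) → ℕ) (u : ℕ) (U : Set (Fin (r + 1) → ℂ)), 0 < sg m r b u →
    0 < sg m r b (m - u) → IsOpen U → U.Nonempty → (∀ s ∈ U, Admc m b u s ∧ NDc m b u s) →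
    ∀ J₀ : Module.End ℂ (Fin r → ℂ),
      ∃ s ∈ U, ∃ J, IsJc m b u s J ∧ J ∉ Submodule.span ℂ {J₀}

/-- BAIRE, one variable. From `S_kN`, `S_cCj`, `S_cJx`. PROOF. There are countably many `B` (SE/Big/eB.lean). For each of them
`J' = B J₁ B⁻¹ = J₀` is fixed; `{s | Admc, NDc, J(s) ∈ ℂ J₀}` is relatively closed in an open set (`S_cCj`) and contains
no nonempty open set (`S_kN`), so it is nowhere dense (as in SE/Big/cBa2.lean). -/
def S_kB1 : Prop :=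
  ∀ (m r : ℕ) (b : Fin (r + 1) → ℕ) (u : ℕ), 0 < sg m r b u → 0 < sg m r b (m - u) →
    ∀ J₁ : Module.End ℂ (Fin r → ℂ),
    IsMeagre {s : Fin (r + 1) → ℂ | Admc m b u s ∧ NDc m b u s ∧
      ∃ B, AlgB B ∧ ∃ J', IsJc m b u s J' ∧ B * J₁ = J' * B}

/-- BAIRE, two variables. From `S_kN`, `S_cKap`, `S_cPv`, `S_cC`, `S_cI`, `S_cJx`, `S_cCj`. PROOF. There are countably many `B`. For each of them
`{(s, s') | Admc, NDc, B J(s) = J'(s') B}` is relatively closed in the open set `O × O'` (`J(s)`, `J'(s')` are unique and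
continuous: `cCj_aux.JM`, `MM_cont` in SE/Big/cCj.lean). If it contained a nonempty open set it would contain
`U × U'` with `U`, `U'` open, not empty; for one `s ∈ U`: `J'(s') = B J(s) B⁻¹` for all `s' ∈ U'`, against `S_kN`. -/
def S_kB2 : Prop :=
  ∀ (m m' r : ℕ) (b b' : Fin (r + 1) → ℕ) (u u' : ℕ), 0 < sg m' r b' u' →
    0 < sg m' r b' (m' - u') →
    IsMeagre {x : (Fin (r + 1) → ℂ) × (Fin (r + 1) → ℂ) | (Admc m b u x.1 ∧ NDc m b u x.1) ∧
      (Admc m' b' u' x.2 ∧ NDc m' b' u' x.2) ∧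
      ∃ B, AlgB B ∧ ∃ J J', IsJc m b u x.1 J ∧ IsJc m' b' u' x.2 J' ∧ B * J = J' * B}

/-! ## Topology -/

/-- SORTING PAIRS. PROOF. As `S_cSo` (SE/Big/cSo.lean): if the real parts of the coordinates of `x.1` (of `x.2`) are different
there is `σ` (`σ'`) with `Inc (x.1 ∘ σ)` (`Inc (x.2 ∘ σ')`). The sets `{x | (x.1 i).re = (x.1 j).re}` are closed with empty
interior; `x ↦ (x.1 ∘ σ, x.2 ∘ σ')` is a homeomorphism. -/
def S_kS : Prop :=
  ∀ (r r' : ℕ) (A : Equiv.Perm (Fin (r + 1)) → Equiv.Perm (Fin (r' + 1)) →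
    Set ((Fin (r + 1) → ℂ) × (Fin (r' + 1) → ℂ))), (∀ σ σ', IsMeagre (A σ σ')) →
    IsMeagre {x : (Fin (r + 1) → ℂ) × (Fin (r' + 1) → ℂ) |
      ∀ (σ : Equiv.Perm (Fin (r + 1))) (σ' : Equiv.Perm (Fin (r' + 1))), Inc (x.1 ∘ σ) →
        Inc (x.2 ∘ σ') → (x.1 ∘ σ, x.2 ∘ σ') ∈ A σ σ'}

/-- PROJECTIONS. PROOF. `IsMeagre.preimage_of_isOpenMap`; the maps `s ↦ s i`, `s ↦ (s i, s j)` (`i ≠ j`), `Prod.fst`, `Prod.snd` are continuous
and open. -/
def S_kP : Prop :=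
  (∀ (q : ℕ) (r : Fin q → ℕ) (i : Fin q) (A : Set (Fin (r i + 1) → ℂ)), IsMeagre A →
    IsMeagre {s : ∀ i, Fin (r i + 1) → ℂ | s i ∈ A}) ∧
  (∀ (q : ℕ) (r : Fin q → ℕ) (i j : Fin q) (A : Set ((Fin (r i + 1) → ℂ) × (Fin (r j + 1) → ℂ))),
    i ≠ j → IsMeagre A → IsMeagre {s : ∀ i, Fin (r i + 1) → ℂ | (s i, s j) ∈ A}) ∧
  (∀ (r r' : ℕ) (A : Set (Fin (r + 1) → ℂ)), IsMeagre A →
    IsMeagre {x : (Fin (r + 1) → ℂ) × (Fin (r' + 1) → ℂ) | x.1 ∈ A}) ∧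
  ∀ (r r' : ℕ) (A : Set (Fin (r' + 1) → ℂ)), IsMeagre A →
    IsMeagre {x : (Fin (r + 1) → ℂ) × (Fin (r' + 1) → ℂ) | x.2 ∈ A}

end SEY
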