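import Pool.Agent.Lib.SE.Y.Spec
import Pool.Agent.Lib.SE.G.SpecK

/-!
# PROJECT SE-Y: jointly very general branch points, pairs (helper64)
-/

set_option autoImplicit false

open Module MeasureTheory Topology

noncomputable section

namespace SEY

open HC HC.E HC.SE SEB SEQ SEG

/-- The modules. -/
structure ModsY : Prop where
  kV : S_kV
  kI : S_kI
  kC : S_kC
  kA : S_kA
  kT : S_kT
  kB1 : S_kB1
  kB2 : S_kB2
  kS : S_kS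
  kP : S_kP
  So : S_cSo
  Pm : S_cPm
  Pn : ∀ (T : AV) (m r : ℕ) (s : Fin (r + 1) → ℂ) (b : Fin (r + 1) → ℕ), IsCov m s b →
    ∀ (N : New T m s b) (D : Cyc T m), D.Z = N.Z →
    ∀ u : (ZMod m)ˣ, D.p u = sg m r b (u : ZMod m).val

/-- Independence of the cover from `D`, for all choices of `N'`, `D'`. -/
def In1 {T : AV} {m : ℕ} (D : Cyc T m) (m' r' : ℕ) (b' : Fin (r' + 1) → ℕ)
    (s' : Fin (r' + 1) → ℂ) : Prop :=
  ∀ T' : AV, IsCov m' s' b' → ∀ (N' : New T' m' s' b') (D' : Cyc T' m'), D'.Z = N'.Z →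
    GFw D' r' → Ind D D'

/-- Independence of two covers. -/
def In2 (m r : ℕ) (b : Fin (r + 1) → ℕ) (m' r' : ℕ) (b' : Fin (r' + 1) → ℕ)
    (x : (Fin (r + 1) → ℂ) × (Fin (r' + 1) → ℂ)) : Prop :=
  ∀ T : AV, IsCov m x.1 b → ∀ (N : New T m x.1 b) (D : Cyc T m), D.Z = N.Z → GFw D r →
    In1 D m' r' b' x.2

theorem pos_of_hypW {m r : ℕ} {b : Fin (r + 1) → ℕ} (h : HypW m r b) :
    ∃ u < m, u.Coprime m ∧ 0 < sg m r b u := by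
  obtain ⟨u, h1, h2, h3, -⟩ := h
  exact ⟨u, h1, h2, h3⟩

/-- The relation in coordinates. -/
theorem rel (M : ModsY) {T T' : AV} {m m' r : ℕ} {D : Cyc T m} {D' : Cyc T' m'}
    (hG : GFw D r) (hG' : GFw D' r) {v : Fin r → T.V} {v' : Fin r → T'.V} (hv : Crd D v)
    (hv' : Crd D' v') {h : Set (Pr2 T T')} (hh : HLie2 D D' h) {s : (ZMod m)ˣ} {t : (ZMod m')ˣ}
    (hno : ¬ Hit2 D D' h s t) (w : (ZMod m')ˣ) (h0 : 0 < D'.p w) (h1 : D'.p w < r) :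
    ∃ s₁ : (ZMod m)ˣ, ∃ B : Module.End ℂ (Fin r → ℂ), AlgB B ∧
      ∀ J J', IsJv D v s₁ J → IsJv D' v' w J' → B * J = J' * B := by
  obtain ⟨s₁, θ, h2, h3⟩ := (M.kT T T' m m' r r D D' hG hG' h hh s t hno).2 w h0 h1
  exact ⟨s₁, M.kA T T' m m' r D D' hG hG' v v' hv hv' h hh s₁ w θ h2 h3⟩

theorem pair1_inc (M : ModsY) {T : AV} {m r : ℕ} {D : Cyc T m} (hD : GFw D r) (m' r' : ℕ)
    (b' : Fin (r' + 1) → ℕ) (hr : 3 ≤ r') (hW : HypW m' r' b') :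
    IsMeagre {s : Fin (r' + 1) → ℂ | Inc s ∧ ¬ In1 D m' r' b' s} := by
  by_cases hrr : r = r'
  swap
  · have : {s : Fin (r' + 1) → ℂ | Inc s ∧ ¬ In1 D m' r' b' s} = ∅ := by
      refine Set.eq_empty_of_forall_notMem ?_
      rintro s' ⟨-, hno⟩
      refine hno fun T' hc N' D' _ hD' h hh s t => ?_
      by_contra hn
      exact hrr (M.kT T T' m m' r r' D D' hD hD' h hh s t hn).1
    rw [this]
    exact IsMeagre.empty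
  subst hrr
  obtain ⟨N₀, hN₀, hC⟩ := M.kC m' r b' (by omega) (pos_of_hypW hW)
  obtain ⟨u, hum, huc, hp, hq⟩ := hW
  have hm3 := hD.hm
  have : NeZero m := ⟨by omega⟩
  obtain ⟨v, hv⟩ := M.kV T m r D hD.hm hD.dim
  choose J hJ _ using fun s₁ => M.kI T m r D hD.hm hD.dim v hv s₁
  have hmU : IsMeagre (⋃ s₁ : (ZMod m)ˣ, {s : Fin (r + 1) → ℂ | Admc m' b' u s ∧ NDc m' b' u s ∧
      ∃ B, AlgB B ∧ ∃ J', IsJc m' b' u s J' ∧ B * J s₁ = J' * B}) :=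
    isMeagre_iUnion fun s₁ => M.kB1 m' r b' u hp hq (J s₁)
  refine (hN₀.union hmU).mono ?_
  rintro s' ⟨hs, hno⟩
  by_contra hbad
  rw [Set.mem_union, not_or] at hbad
  refine hno fun T' hc N' D' hZ hD' h hh s t => ?_
  by_contra hn
  obtain ⟨v', hv', hJ'⟩ := hC s' hs hbad.1 hc T' N' D' hZ
  obtain ⟨w, hw⟩ := exists_unit hum huc
  have hpw : D'.p w = sg m' r b' u := by rw [M.Pn T' m' r s' b' hc N' D' hZ, hw]
  have hpn : D'.p (-w) = sg m' r b' (m' - u) := by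
    have : NeZero m' := ⟨by have := hc.1; omega⟩
    rw [M.Pn T' m' r s' b' hc N' D' hZ, Hit_aux.neg_val hc.1 w, hw]
  have hsum : D'.p w + D'.p (-w) = r := (dim_all T' m' r D' hD'.hm hD'.dim w).2
  obtain ⟨s₁, B, hB, hBJ⟩ := rel M hD hD' hv hv' hh hn w (by omega) (by omega)
  obtain ⟨J₂, hJ₂, -⟩ := M.kI T' m' r D' hD'.hm hD'.dim v' hv' w
  refine hbad.2 (Set.mem_iUnion.2 ⟨s₁, ⟨hs, hc, hum, huc⟩, ?_, B, hB, J₂, ?_, hBJ _ _ (hJ s₁) hJ₂⟩)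
  · have := (hJ' w).1
    rwa [hw] at this
  · have := (hJ' w).2 J₂ hJ₂
    rwa [hw] at this

theorem pair2_inc (M : ModsY) (m r : ℕ) (b : Fin (r + 1) → ℕ) (m' r' : ℕ)
    (b' : Fin (r' + 1) → ℕ) (hr : 3 ≤ r) (hW : HypW m r b) (hr' : 3 ≤ r') (hW' : HypW m' r' b') :
    IsMeagre {x : (Fin (r + 1) → ℂ) × (Fin (r' + 1) → ℂ) | (Inc x.1 ∧ Inc x.2) ∧
      ¬ In2 m r b m' r' b' x} := by
  by_cases hrr : r = r'
  swap
  · have : {x : (Fin (r + 1) → ℂ) × (Fin (r' + 1) → ℂ) | (Inc x.1 ∧ Inc x.2) ∧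
        ¬ In2 m r b m' r' b' x} = ∅ := by
      refine Set.eq_empty_of_forall_notMem ?_
      rintro x ⟨-, hno⟩
      refine hno fun T hc N D _ hD T' hc' N' D' _ hD' h hh s t => ?_
      by_contra hn
      exact hrr (M.kT T T' m m' r r' D D' hD hD' h hh s t hn).1
    rw [this]
    exact IsMeagre.empty
  subst hrr
  obtain ⟨N₀, hN₀, hC⟩ := M.kC m r b (by omega) (pos_of_hypW hW)
  obtain ⟨N₁, hN₁, hC'⟩ := M.kC m' r b' (by omega) (pos_of_hypW hW')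
  obtain ⟨u, hum, huc, hp, hq⟩ := hW'
  obtain ⟨-, -, hP1, hP2⟩ := M.kP
  have hmU : IsMeagre (⋃ z : {z : ℕ // z < m ∧ z.Coprime m},
      {x : (Fin (r + 1) → ℂ) × (Fin (r + 1) → ℂ) | (Admc m b z.1 x.1 ∧ NDc m b z.1 x.1) ∧
        (Admc m' b' u x.2 ∧ NDc m' b' u x.2) ∧
        ∃ B, AlgB B ∧ ∃ J J', IsJc m b z.1 x.1 J ∧ IsJc m' b' u x.2 J' ∧ B * J = J' * B}) :=
    isMeagre_iUnion fun z => M.kB2 m m' r b b' z.1 u hp hq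
  refine (((hP1 r r N₀ hN₀).union (hP2 r r N₁ hN₁)).union hmU).mono ?_
  rintro x ⟨⟨hs, hs'⟩, hno⟩
  by_contra hbad
  rw [Set.mem_union, Set.mem_union, not_or, not_or] at hbad
  obtain ⟨⟨hb0, hb1⟩, hb2⟩ := hbad
  refine hno fun T hc N D hZ hD T' hc' N' D' hZ' hD' h hh s t => ?_
  by_contra hn
  obtain ⟨v, hv, hJ⟩ := hC x.1 hs hb0 hc T N D hZ
  obtain ⟨v', hv', hJ'⟩ := hC' x.2 hs' hb1 hc' T' N' D' hZ'
  obtain ⟨w, hw⟩ := exists_unit hum huc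
  have hpw : D'.p w = sg m' r b' u := by rw [M.Pn T' m' r x.2 b' hc' N' D' hZ', hw]
  have hpn : D'.p (-w) = sg m' r b' (m' - u) := by
    have : NeZero m' := ⟨by have := hc'.1; omega⟩
    rw [M.Pn T' m' r x.2 b' hc' N' D' hZ', Hit_aux.neg_val hc'.1 w, hw]
  have hsum : D'.p w + D'.p (-w) = r := (dim_all T' m' r D' hD'.hm hD'.dim w).2
  obtain ⟨s₁, B, hB, hBJ⟩ := rel M hD hD' hv hv' hh hn w (by omega) (by omega)
  obtain ⟨J₁, hJ₁, -⟩ := M.kI T m r D hD.hm hD.dim v hv s₁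
  obtain ⟨J₂, hJ₂, -⟩ := M.kI T' m' r D' hD'.hm hD'.dim v' hv' w
  have hm3 := hc.1
  have : NeZero m := ⟨by omega⟩
  have hs₁m : (s₁ : ZMod m).val < m := ZMod.val_lt _
  have hs₁c : (s₁ : ZMod m).val.Coprime m := ZMod.val_coe_unit_coprime s₁
  refine hb2 (Set.mem_iUnion.2 ⟨⟨(s₁ : ZMod m).val, hs₁m, hs₁c⟩,
    ⟨⟨hs, hc, hs₁m, hs₁c⟩, (hJ s₁).1⟩, ⟨⟨hs', hc', hum, huc⟩, ?_⟩, B, hB, J₁, J₂,
    (hJ s₁).2 J₁ hJ₁, ?_, hBJ _ _ hJ₁ hJ₂⟩)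
  · have := (hJ' w).1
    rwa [hw] at this
  · have := (hJ' w).2 J₂ hJ₂
    rwa [hw] at this

/-! ## All branch points -/

theorem in1_perm (M : ModsY) {T : AV} {m : ℕ} {D : Cyc T m} {m' r' : ℕ}
    {b' : Fin (r' + 1) → ℕ} {s' : Fin (r' + 1) → ℂ} (σ : Equiv.Perm (Fin (r' + 1)))
    (h : In1 D m' r' (b' ∘ σ) (s' ∘ σ)) : In1 D m' r' b' s' := by
  intro T' hc N' D' hZ hD'
  obtain ⟨-, h1, h2⟩ := M.Pm T' m' r' s' b' σ
  obtain ⟨N'', hN''⟩ := h2 N'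
  exact h T' (h1 hc) N'' D' (hZ.trans hN''.symm) hD'

theorem pair1 (M : ModsY) {T : AV} {m r : ℕ} {D : Cyc T m} (hD : GFw D r) (m' r' : ℕ)
    (b' : Fin (r' + 1) → ℕ) (hr : 3 ≤ r') (hW : HypW m' r' b') :
    IsMeagre {s : Fin (r' + 1) → ℂ | ¬ In1 D m' r' b' s} := by
  refine (M.So r' (fun σ => {s : Fin (r' + 1) → ℂ | Inc s ∧ ¬ In1 D m' r' (b' ∘ σ) s})
    fun σ => pair1_inc M hD m' r' (b' ∘ σ) hr (hypW_perm σ hW)).mono ?_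
  rintro s hno σ hσ
  exact ⟨hσ, fun h => hno (in1_perm M σ h)⟩

theorem pair2 (M : ModsY) (m r : ℕ) (b : Fin (r + 1) → ℕ) (m' r' : ℕ)
    (b' : Fin (r' + 1) → ℕ) (hr : 3 ≤ r) (hW : HypW m r b) (hr' : 3 ≤ r') (hW' : HypW m' r' b') :
    IsMeagre {x : (Fin (r + 1) → ℂ) × (Fin (r' + 1) → ℂ) | ¬ In2 m r b m' r' b' x} := by
  refine (M.kS r r' (fun σ σ' => {x : (Fin (r + 1) → ℂ) × (Fin (r' + 1) → ℂ) |
      (Inc x.1 ∧ Inc x.2) ∧ ¬ In2 m r (b ∘ σ) m' r' (b' ∘ σ') x})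
    fun σ σ' => pair2_inc M m r (b ∘ σ) m' r' (b' ∘ σ') hr (hypW_perm σ hW) hr'
      (hypW_perm σ' hW')).mono ?_
  rintro x hno σ σ' hσ hσ'
  refine ⟨⟨hσ, hσ'⟩, fun h => hno fun T hc N D hZ hD => ?_⟩
  obtain ⟨-, h1, h2⟩ := M.Pm T m r x.1 b σ
  obtain ⟨N'', hN''⟩ := h2 N
  exact in1_perm M σ' (h T (h1 hc) N'' D (hZ.trans hN''.symm) hD)

end SEY
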