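import Pool.Agent.Lib.SE.Y.Asm
import Pool.Agent.Lib.SE.G.Fn

/-!
# PROJECT SE-Y, module Fn: the final theorem with jointly very general covers (helper64, after
helper59's SE/G/Fn.lean)
-/

set_option autoImplicit false

open Module MeasureTheory Topology

noncomputable section

namespace SEY

open HC HC.E HC.SE SEB SEQ SE SER SEE SES SEG

/-! ## Families of pairwise independent good factors -/

/-- Families of pairwise independent good factors hit everything. -/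
theorem hit_allI {q : ℕ} {T : Fin q → AV} {m r : Fin q → ℕ} (D : ∀ i, Cyc (T i) (m i))
    (hG : ∀ i, GFw (D i) (r i)) (hP : ∀ i j, i ≠ j → Ind (D i) (D j)) (h : Set (Tup T))
    (hh : HLieT D h) (F : Set (Ch m)) (hF : ∀ x ∈ F, neg x ∉ F) : HitsT D h F := by
  have hm : ∀ i, 3 ≤ m i := fun i => (hG i).hm
  obtain ⟨h1, h2⟩ := htT_all q T m D hm (fun i => (hG i).hit)
    (fun i j hij h hh s t => hP i j hij h hh s t) h hh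
  exact rbT_all q T m D hm h hh h1 h2 F hF

/-- The commutators contain all of `su`. -/
theorem su_allI {q : ℕ} {T : Fin q → AV} {m r : Fin q → ℕ} (D : ∀ i, Cyc (T i) (m i))
    (hG : ∀ i, GFw (D i) (r i)) (hP : ∀ i j, i ≠ j → Ind (D i) (D j)) (h : Set (Tup T))
    (hh : HLieT D h) (X : Tup T) (hX : ∀ i, IsSU (D i) (X i)) :
    X ∈ Submodule.span ℝ (ComT h) :=
  fiT_all q T m D (fun i => (hG i).hm) h hh (hit_allI D hG hP h hh) X hX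

/-! ## Labelled data -/

/-- An abelian variety with a good structure. -/
structure Lb where
  G : AV
  m : ℕ
  r : ℕ
  D : Cyc G m

/-- A good factor of the kinds of SE-G. -/
def Ok (L : Lb) : Prop := GFw L.D L.r ∧ Kdk L.D L.r ∧ HDa L.D

theorem dc_mono {P Q : AV → Prop} (h : ∀ G, P G → Q G) {B : AV} (hB : Dc P B) : Dc Q B := by
  obtain ⟨A, N, G, h1, h2, h3⟩ := hB
  exact ⟨A, N, G, h1, fun n => h _ (h2 n), h3⟩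

/-- The class of the pieces of fixed factors. -/
def PF {ι : Type} (F : ι → Lb) (G : AV) : Prop := ((∃ x, G = (F x).G) ∨ IsRM G) ∨ IsSy G

theorem exists_fam {n₀ : ℕ} (G₀ : Fin n₀ → AV) (h : ∀ n, Dc Pk (G₀ n)) :
    ∃ (ι : Type) (_ : Countable ι) (F : ι → Lb), (∀ x, Ok (F x)) ∧ ∀ n, Dc (PF F) (G₀ n) := by
  classical
  choose A N H hA hP hI using h
  let ι : Type := {p : (n : Fin n₀) × Fin (N n) // Gok (H p.1 p.2)}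
  have hx : ∀ x : ι, ∃ L : Lb, L.G = H x.1.1 x.1.2 ∧ Ok L := by
    intro x
    obtain ⟨m, r, D, h1, h2, h3⟩ := x.2
    exact ⟨⟨H x.1.1 x.1.2, m, r, D⟩, rfl, h1, h2, h3⟩
  choose F hF1 hF2 using hx
  refine ⟨ι, inferInstance, F, hF2, fun n => ⟨A n, N n, H n, hA n, fun l => ?_, hI n⟩⟩
  rcases hP n l with (h | h) | h
  · exact Or.inl (Or.inl ⟨⟨⟨n, l⟩, h⟩, (hF1 ⟨⟨n, l⟩, h⟩).symm⟩)
  · exact Or.inl (Or.inr h)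
  · exact Or.inr h

section Lab

variable {ι : Type} (F : ι → Lb) {p : ℕ} (m₀ r₀ : Fin p → ℕ) (b₀ : ∀ i, Fin (r₀ i + 1) → ℕ)
  (s : ∀ i, Fin (r₀ i + 1) → ℂ) (J₀ : Fin p → AV)

/-- The admissible data: a fixed one, or a structure of one of the covers. -/
inductive Lab : (G : AV) → (m r : ℕ) → Cyc G m → Prop
  | fix (x : ι) : Lab (F x).G (F x).m (F x).r (F x).D
  | cov (i : Fin p) (hW : HypW (m₀ i) (r₀ i) (b₀ i)) (hc : IsCov (m₀ i) (s i) (b₀ i))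
      (N : New (J₀ i) (m₀ i) (s i) (b₀ i)) (D : Cyc (J₀ i) (m₀ i)) (hZ : D.Z = N.Z)
      (hG : GFw D (r₀ i)) : Lab (J₀ i) (m₀ i) (r₀ i) D

/-- The conditions on `s`. -/
structure Vg : Prop where
  mm : ∀ i, s i ∉ MMx (m₀ i) (r₀ i) (b₀ i)
  fx : ∀ x i, HypW (m₀ i) (r₀ i) (b₀ i) → In1 (F x).D (m₀ i) (r₀ i) (b₀ i) (s i)
  cv : ∀ i j, i ≠ j → HypW (m₀ i) (r₀ i) (b₀ i) → HypW (m₀ j) (r₀ j) (b₀ j) →
    In2 (m₀ i) (r₀ i) (b₀ i) (m₀ j) (r₀ j) (b₀ j) (s i, s j)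

end Lab

/-- SYMMETRY. -/
def S_kW : Prop :=
  ∀ (T T' : AV) (m m' : ℕ) (D : Cyc T m) (D' : Cyc T' m'), Ind D D' → Ind D' D

theorem isg_refl (T : AV) : Isg T T := ⟨LinearEquiv.refl ℂ T.V, fun v hv => ⟨1, one_ne_zero, by
  rw [one_smul]; exact hv⟩⟩

theorem ind_of_lab (hW : S_kW) (hCp : S_Cpk) {ι : Type} {F : ι → Lb} (hF : ∀ x, Ok (F x))
    {p : ℕ} {m₀ r₀ : Fin p → ℕ} {b₀ : ∀ i, Fin (r₀ i + 1) → ℕ} {s : ∀ i, Fin (r₀ i + 1) → ℂ}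
    {J₀ : Fin p → AV} (hV : Vg F m₀ r₀ b₀ s) {G G' : AV} {m m' r r' : ℕ} {D : Cyc G m}
    {D' : Cyc G' m'} (h : Lab F m₀ r₀ b₀ s J₀ G m r D) (h' : Lab F m₀ r₀ b₀ s J₀ G' m' r' D')
    (hI : ¬ Isg G G') : Ind D D' := by
  cases h with
  | fix x =>
    cases h' with
    | fix y =>
      exact fun h hh s t => tPPw _ _ _ _ _ _ _ _ (hF x).1 (hF y).1
        (hCp _ _ _ _ _ _ _ _ (hF x).1 (hF y).1 (hF x).2.1 (hF y).2.1) hI h hh s t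
    | cov i hW' hc N _ hZ hG => exact hV.fx x i hW' _ hc N _ hZ hG
  | cov i hW' hc N _ hZ hG =>
    cases h' with
    | fix y => exact hW _ _ _ _ _ _ (hV.fx y i hW' _ hc N _ hZ hG)
    | cov j hW'' hc' N' _ hZ' hG' =>
      have hij : i ≠ j := by
        rintro rfl
        exact hI (isg_refl _)
      exact hV.cv i j hij hW' hW'' _ hc N _ hZ hG _ hc' N' _ hZ' hG'

theorem gfw_of_lab {ι : Type} {F : ι → Lb} (hF : ∀ x, Ok (F x))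
    {p : ℕ} {m₀ r₀ : Fin p → ℕ} {b₀ : ∀ i, Fin (r₀ i + 1) → ℕ} {s : ∀ i, Fin (r₀ i + 1) → ℂ}
    {J₀ : Fin p → AV} {G : AV} {m r : ℕ} {D : Cyc G m}
    (h : Lab F m₀ r₀ b₀ s J₀ G m r D) : GFw D r := by
  cases h with
  | fix x => exact (hF x).1
  | cov i hW' hc N _ hZ hG => exact hG

theorem two_of_lab (hP2 : S_P2k) {ι : Type} {F : ι → Lb} (hF : ∀ x, Ok (F x))
    {p : ℕ} {m₀ r₀ : Fin p → ℕ} (hr : ∀ i, 3 ≤ r₀ i) {b₀ : ∀ i, Fin (r₀ i + 1) → ℕ}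
    {s : ∀ i, Fin (r₀ i + 1) → ℂ} {J₀ : Fin p → AV} {G : AV} {m r : ℕ} {D : Cyc G m}
    (h : Lab F m₀ r₀ b₀ s J₀ G m r D) : ∃ s, 2 ≤ D.p s := by
  cases h with
  | fix x => exact hP2 _ _ _ _ (hF x).1 (hF x).2.1
  | cov i hW' hc N D' hZ hG =>
    have h1 := (dim_all _ _ _ D' hG.hm hG.dim 1).2
    have h2 := hr i
    by_cases h3 : 2 ≤ D'.p 1
    · exact ⟨1, h3⟩
    · exact ⟨-1, by omega⟩

theorem hda_of_lab {ι : Type} {F : ι → Lb} (hF : ∀ x, Ok (F x))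
    {p : ℕ} {m₀ r₀ : Fin p → ℕ} {b₀ : ∀ i, Fin (r₀ i + 1) → ℕ} {s : ∀ i, Fin (r₀ i + 1) → ℂ}
    {J₀ : Fin p → AV} {G : AV} {m r : ℕ} {D : Cyc G m}
    (h : Lab F m₀ r₀ b₀ s J₀ G m r D) : HDa D := by
  cases h with
  | fix x => exact (hF x).2.2
  | cov i hW' hc N _ hZ hG =>
    intro R hR
    exact SEP.hasDA s_da SEP.s_DAB (Or.inl ⟨r₀ i, s i, b₀ i, N, hc, hZ.symm⟩) hR

/-! ## The meagre set -/

theorem isMeagre_and {X : Type} [TopologicalSpace X] {P : Prop} {A : Set X}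
    (h : P → IsMeagre A) : IsMeagre {x | P ∧ x ∈ A} := by
  by_cases hP : P
  · exact (h hP).mono fun x hx => hx.2
  · have : {x | P ∧ x ∈ A} = ∅ := Set.eq_empty_of_forall_notMem fun x hx => hP hx.1
    rw [this]
    exact IsMeagre.empty

theorem exists_vg (M : ModsY) {ι : Type} [Countable ι] (F : ι → Lb) (hF : ∀ x, Ok (F x)) {p : ℕ}
    (m₀ r₀ : Fin p → ℕ) (b₀ : ∀ i, Fin (r₀ i + 1) → ℕ) (hr : ∀ i, 3 ≤ r₀ i) :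
    IsMeagre {s : ∀ i, Fin (r₀ i + 1) → ℂ | ¬ Vg F m₀ r₀ b₀ s} := by
  obtain ⟨hP1, hP2, -, -⟩ := M.kP
  have h1 : IsMeagre (⋃ i, {s : ∀ i, Fin (r₀ i + 1) → ℂ | s i ∈ MMx (m₀ i) (r₀ i) (b₀ i)}) :=
    isMeagre_iUnion fun i => hP1 p r₀ i _ (SEB.tMx _ _ _)
  have h2 : IsMeagre (⋃ z : ι × Fin p, {s : ∀ i, Fin (r₀ i + 1) → ℂ |
      HypW (m₀ z.2) (r₀ z.2) (b₀ z.2) ∧
        s ∈ {s : ∀ i, Fin (r₀ i + 1) → ℂ | s z.2 ∈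
          {x | ¬ In1 (F z.1).D (m₀ z.2) (r₀ z.2) (b₀ z.2) x}}}) :=
    isMeagre_iUnion fun z => isMeagre_and fun hW =>
      hP1 p r₀ z.2 _ (pair1 M (hF z.1).1 _ _ _ (hr z.2) hW)
  have h3 : IsMeagre (⋃ z : Fin p × Fin p, {s : ∀ i, Fin (r₀ i + 1) → ℂ |
      (z.1 ≠ z.2 ∧ HypW (m₀ z.1) (r₀ z.1) (b₀ z.1) ∧ HypW (m₀ z.2) (r₀ z.2) (b₀ z.2)) ∧
        s ∈ {s : ∀ i, Fin (r₀ i + 1) → ℂ | (s z.1, s z.2) ∈
          {x | ¬ In2 (m₀ z.1) (r₀ z.1) (b₀ z.1) (m₀ z.2) (r₀ z.2) (b₀ z.2) x}}}) :=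
    isMeagre_iUnion fun z => isMeagre_and fun hW =>
      hP2 p r₀ z.1 z.2 _ hW.1 (pair2 M _ _ _ _ _ _ (hr z.1) hW.2.1 (hr z.2) hW.2.2)
  refine ((h1.union h2).union h3).mono ?_
  intro s hs
  by_contra hbad
  rw [Set.mem_union, Set.mem_union, not_or, not_or] at hbad
  obtain ⟨⟨hb1, hb2⟩, hb3⟩ := hbad
  refine hs ⟨fun i h => hb1 (Set.mem_iUnion.2 ⟨i, h⟩), fun x i hW => ?_, fun i j hij hW hW' => ?_⟩
  · by_contra h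
    exact hb2 (Set.mem_iUnion.2 ⟨(x, i), hW, h⟩)
  · by_contra h
    exact hb3 (Set.mem_iUnion.2 ⟨(i, j), ⟨hij, hW, hW'⟩, h⟩)

/-! ## The final theorem -/

/-- The class of the pieces of fixed factors and covers. -/
def PJ {ι : Type} (F : ι → Lb) {p : ℕ} (m₀ r₀ : Fin p → ℕ) (b₀ : ∀ i, Fin (r₀ i + 1) → ℕ)
    (s : ∀ i, Fin (r₀ i + 1) → ℂ) (J₀ : Fin p → AV) (G : AV) : Prop :=
  ((∃ (m r : ℕ) (D : Cyc G m), Lab F m₀ r₀ b₀ s J₀ G m r D) ∨ IsRM G) ∨ IsSy G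

theorem dc_of_fixed {ι : Type} {F : ι → Lb} {p : ℕ} {m₀ r₀ : Fin p → ℕ}
    {b₀ : ∀ i, Fin (r₀ i + 1) → ℕ} {s : ∀ i, Fin (r₀ i + 1) → ℂ} {J₀ : Fin p → AV} {G : AV}
    (h : Dc (PF F) G) : Dc (PJ F m₀ r₀ b₀ s J₀) G := by
  refine dc_mono ?_ h
  rintro G ((⟨x, rfl⟩ | h) | h)
  · exact Or.inl (Or.inl ⟨_, _, _, Lab.fix x⟩)
  · exact Or.inl (Or.inr h)
  · exact Or.inr h

theorem dc_of_cov (hA : S_DcA) {ι : Type} {F : ι → Lb} {p : ℕ} {m₀ r₀ : Fin p → ℕ}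
    (hr : ∀ i, 3 ≤ r₀ i) {b₀ : ∀ i, Fin (r₀ i + 1) → ℕ} {s : ∀ i, Fin (r₀ i + 1) → ℂ}
    {J₀ : Fin p → AV} (hV : Vg F m₀ r₀ b₀ s) (i : Fin p) (hc : IsCov (m₀ i) (s i) (b₀ i))
    (N : New (J₀ i) (m₀ i) (s i) (b₀ i)) : Dc (PJ F m₀ r₀ b₀ s J₀) (J₀ i) := by
  obtain ⟨a1, a2, -, -⟩ := hA (PJ F m₀ r₀ b₀ s J₀)
  obtain ⟨D, hD⟩ := tAvg (J₀ i) (m₀ i) (by have := hc.1; omega) N.Z N.lat N.cyc
  by_cases hW : HypW (m₀ i) (r₀ i) (b₀ i)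
  · exact a2 _ (Or.inl (Or.inl ⟨_, _, D, Lab.cov i hW hc N D hD
      (gfw_of_MMx (hr i) hW hc (hV.mm i) N D hD).1⟩))
  · exact a1 _ (thA4 _ _ D (ab_of_defA8 mods mods5 mods8
      ((hypW_or_defA _ _ _).resolve_left hW) hc N D hD))

/-- **THE FINAL THEOREM.** `M₀` universal meagre sets; `G₀ n` finitely many abelian varieties of the
class `Fac M₀`; `p` families of curves `y ^ (m_i) = ∏_j (x - s_(i,j)) ^ b_(i,j)` with at least four finite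
branch points, all exponents; for `s` outside a meagre set `M` of `∏_i ℂ^(r_i + 1)`: `B` isogenous to a
product of an abelian variety of CM type, of copies of the `G₀ n` and of the new parts `J₀ i` of the
Jacobians; `T` isogenous to a product of `B` and of factors `J_(j n)`. The Hodge classes of `T` which are
killed by the `su` of the `J_i` are algebraic (`N = 0`: the Hodge conjecture for `B`). -/
def FinJ : Prop :=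
  ∃ M₀ : (m r : ℕ) → (Fin (r + 1) → ℕ) → Set (Fin (r + 1) → ℂ), (∀ m r b, IsMeagre (M₀ m r b)) ∧
  ∀ (n₀ : ℕ) (G₀ : Fin n₀ → AV), (∀ n, Fac M₀ (G₀ n)) →
  ∀ (p : ℕ) (m₀ r₀ : Fin p → ℕ) (b₀ : ∀ i, Fin (r₀ i + 1) → ℕ), (∀ i, 3 ≤ r₀ i) →
  ∃ M : Set (∀ i, Fin (r₀ i + 1) → ℂ), IsMeagre M ∧ ∀ s ∉ M,
  ∀ J₀ : Fin p → AV, (∀ i, IsCov (m₀ i) (s i) (b₀ i) ∧ Nonempty (New (J₀ i) (m₀ i) (s i) (b₀ i))) →
  ∀ (A B T : AV) (N' : ℕ) (κ : Fin N' → Fin n₀ ⊕ Fin p), IsCM A →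
  IsProdE B A (fun n => Sum.elim G₀ J₀ (κ n)) →
  ∀ (q N : ℕ) (J : Fin q → AV) (j : Fin N → Fin q) (m : Fin q → ℕ)
    (Z : ∀ i, Module.End ℂ (J i).V) (E : ∀ i, (J i).V →ₗ[ℝ] (J i).V →ₗ[ℝ] ℝ)
    (ψ : T.V ≃ₗ[ℂ] B.V × (∀ n, (J (j n)).V)),
    (∀ i, Fct (J i) (m i) (Z i)) → (∀ i, IsPol (J i) (Z i) (E i)) →
    (∀ v ∈ T.L, ∃ k : ℕ, k ≠ 0 ∧ k • (ψ v).1 ∈ B.L ∧ ∀ n, k • (ψ v).2 n ∈ (J (j n)).L) →
    ∀ (d : ℕ) (c : Hlg T d), IsHodge T d c → SUK Z E ψ c → Alg2 T d c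

open SEQ.Fn_aux in
/-- THE MAIN STEP. -/
theorem main_of (hI : Ing) (hDcA : S_DcA) (hDcB : S_DcB) (hCp : S_Cpk) (hP2 : S_P2k)
    (hW : S_kW) {ι : Type} {F : ι → Lb} (hF₀ : ∀ x, Ok (F x)) {p : ℕ} {m₀ r₀ : Fin p → ℕ}
    (hr : ∀ i, 3 ≤ r₀ i) {b₀ : ∀ i, Fin (r₀ i + 1) → ℕ} {s : ∀ i, Fin (r₀ i + 1) → ℂ}
    {J₀ : Fin p → AV} (hV : Vg F m₀ r₀ b₀ s) {A₀ B T : AV} {N₀ : ℕ} {G₀ : Fin N₀ → AV}
    (hA₀ : IsCM A₀) (hG₀ : ∀ n, Dc (PJ F m₀ r₀ b₀ s J₀) (G₀ n)) (hB₀ : IsProdE B A₀ G₀)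
    {q N : ℕ} {J : Fin q → AV} {j : Fin N → Fin q} {m : Fin q → ℕ}
    {Z : ∀ i, Module.End ℂ (J i).V} {E : ∀ i, (J i).V →ₗ[ℝ] (J i).V →ₗ[ℝ] ℝ}
    {ψ : T.V ≃ₗ[ℂ] B.V × (∀ n, (J (j n)).V)} (hF : ∀ i, Fct (J i) (m i) (Z i))
    (hE : ∀ i, IsPol (J i) (Z i) (E i))
    (hψ : ∀ v ∈ T.L, ∃ k : ℕ, k ≠ 0 ∧ k • (ψ v).1 ∈ B.L ∧ ∀ n, k • (ψ v).2 n ∈ (J (j n)).L)
    {d : ℕ} {c : Hlg T d} (hc : IsHodge T d c) (hS : SUK Z E ψ c) : Alg2 T d c := by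
  obtain ⟨A, N', G, hA, hG', hB⟩ : Dc (PJ F m₀ r₀ b₀ s J₀) B :=
    hDcB hDcA _ A₀ B N₀ G₀ ((hDcA _).1 A₀ hA₀) hG₀ hB₀
  obtain ⟨B₁, N₁₀, N₃, G₁₀, G₃, hG0, hG3, hB1, hBB⟩ :=
    tSpl (fun G => (∃ (m r : ℕ) (D : Cyc G m), Lab F m₀ r₀ b₀ s J₀ G m r D) ∨ IsRM G) IsSy
      A B N' G hG' hB
  obtain ⟨Y, N₁', N₂, G₁, G₂, hG1, hG2, hY, hBY⟩ :=
    tSpl (fun G => ∃ (m r : ℕ) (D : Cyc G m), Lab F m₀ r₀ b₀ s J₀ G m r D) IsRM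
      A B₁ N₁₀ G₁₀ hG0 hB1
  obtain ⟨A', q₁, N₁, R, k, hA', hR, hne, hYR⟩ := SEQ.tRep HC.E.tIsoInv
    (fun G => ∃ (m r : ℕ) (D : Cyc G m), Lab F m₀ r₀ b₀ s J₀ G m r D) A Y N₁' G₁ hA
    (fun n => Or.inr (hG1 n)) hY
  obtain ⟨q', S, κ, hSy, hne', hBS⟩ := hI.rep HC.E.tIsoInv IsSy B₁ B N₃ G₃ hG3 hBB
  choose m₁ r₁ D₁ hL using hR
  choose D hDZ hDψ using fun i => cyc_fct (hF i) (hE i)
  obtain rfl : (fun i => (D i).Z) = Z := funext hDZ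
  obtain rfl : (fun i => (D i).ψ) = E := funext hDψ
  have h1 : ∀ i, GFw (D₁ i) (r₁ i) := fun i => gfw_of_lab hF₀ (hL i)
  have hInd : ∀ i i', i ≠ i' → Ind (D₁ i) (D₁ i') := fun i i' h =>
    ind_of_lab hW hCp hF₀ hV (hL i) (hL i') (hne i i' h)
  have hm1 : ∀ i, 3 ≤ m₁ i := fun i => (h1 i).hm
  have hDA : ∀ (J : AV) (m : ℕ) (Z : Module.End ℂ J.V) (R : J.V →ₗ[ℝ] J.V →ₗ[ℝ] ℝ),
      Fct J m Z → IsPol J Z R → HasDA (fun T m c => HC.SE.Alg2 T m c) m J Z R :=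
    fun _ _ _ _ hF hP => SEP.hasDA s_da SEP.s_DAB hF hP
  have hHT : HT D₁ := fun h hh F hF' => hit_allI D₁ h1 hInd h hh F hF'
  have hp2 : ∀ i, ∃ s, 2 ≤ (D₁ i).p s := fun i => two_of_lab hP2 hF₀ hr (hL i)
  -- the symplectic factors
  choose h2S E' hRf hSp using hSy
  choose f hf using fun i => hI.fm (S i) (E' i) (hRf i)
  have hTu : TuD S E' f := ⟨h2S, hRf, hf, hSp, hne'⟩
  have hLM : ∀ B₂ : AV, LM D₁ B₂ S E' := fun B₂ =>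
    hI.lm q₁ q' R m₁ r₁ D₁ B₂ S E' f hTu hm1 (fun i => (h1 i).dim) (h0 D₁ hm1 hHT hp2 B₂)
  refine hI.th A' Y B₁ B T q₁ N₁ N₂ q N R k m₁ D₁ G₂ J j m D q' N₃ S κ E' ψ hA' hRf hLM hG2 hYR
    hBY hBS hψ ?_ (fun C d c hc => hI.hc q' N₃ S κ E' f C hTu d c hc) d c hc hS
  intro T₁ ψ₁ hψ₁ d₁ c₁ hc₁ hS₁
  exact tThR tHlT tLiR tThQ tLX tOp4 tHr tLiS tKuR tTrR tRg A' Y B₁ T₁ q₁ N₁ N₂ q N R k m₁ D₁ G₂
    J j m D ψ₁ hA' hm1 (fun i => fct_three (hF i))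
    (fun i => hda_of_lab hF₀ (hL i) (D₁ i).ψ (isPol_cyc (D₁ i)))
    (fun i => hDA _ _ _ _ (hF i) (hE i))
    (fun h hh X hX => su_allI D₁ h1 hInd h hh X hX)
    (fun B₂ hB₂ => lrf q₁ R m₁ D₁ hm1 hHT hp2 B₂ hB₂)
    hG2 hYR hBY hψ₁ d₁ c₁ hc₁ hS₁

/-- Assembly for any class `Fa` of fixed factors which decompose. -/
theorem finJ_of' (hI : Ing) (hDcA : S_DcA) (hDcB : S_DcB) (hCp : S_Cpk) (hP2 : S_P2k)
    (hW : S_kW) (M : ModsY) {n₀ : ℕ} (G₀ : Fin n₀ → AV) (hG₀ : ∀ n, Dc Pk (G₀ n)) (p : ℕ)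
    (m₀ r₀ : Fin p → ℕ) (b₀ : ∀ i, Fin (r₀ i + 1) → ℕ) (hr : ∀ i, 3 ≤ r₀ i) :
    ∃ M : Set (∀ i, Fin (r₀ i + 1) → ℂ), IsMeagre M ∧ ∀ s ∉ M,
    ∀ J₀ : Fin p → AV,
    (∀ i, IsCov (m₀ i) (s i) (b₀ i) ∧ Nonempty (New (J₀ i) (m₀ i) (s i) (b₀ i))) →
    ∀ (A B T : AV) (N' : ℕ) (κ : Fin N' → Fin n₀ ⊕ Fin p), IsCM A →
    IsProdE B A (fun n => Sum.elim G₀ J₀ (κ n)) →
    ∀ (q N : ℕ) (J : Fin q → AV) (j : Fin N → Fin q) (m : Fin q → ℕ)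
      (Z : ∀ i, Module.End ℂ (J i).V) (E : ∀ i, (J i).V →ₗ[ℝ] (J i).V →ₗ[ℝ] ℝ)
      (ψ : T.V ≃ₗ[ℂ] B.V × (∀ n, (J (j n)).V)),
      (∀ i, Fct (J i) (m i) (Z i)) → (∀ i, IsPol (J i) (Z i) (E i)) →
      (∀ v ∈ T.L, ∃ k : ℕ, k ≠ 0 ∧ k • (ψ v).1 ∈ B.L ∧ ∀ n, k • (ψ v).2 n ∈ (J (j n)).L) →
      ∀ (d : ℕ) (c : Hlg T d), IsHodge T d c → SUK Z E ψ c → Alg2 T d c := by
  obtain ⟨ι, hι, F, hF, hD⟩ := exists_fam G₀ hG₀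
  refine ⟨_, exists_vg M F hF m₀ r₀ b₀ hr, ?_⟩
  intro s hs J₀ hJ₀ A B T N' κ hA hB q N J j m Z E ψ hFc hE hψ d c hc hS
  have hV : Vg F m₀ r₀ b₀ s := not_not.1 hs
  refine main_of hI hDcA hDcB hCp hP2 hW hF hr (J₀ := J₀) hV hA (fun n => ?_) hB hFc hE hψ hc hS
  rcases hκ : κ n with k | i
  · exact dc_of_fixed (hD k)
  · obtain ⟨hc', ⟨N⟩⟩ := hJ₀ i
    exact dc_of_cov hDcA hr hV i hc' N

theorem finJ_of (hI : Ing) (hDcA : S_DcA) (hDcB : S_DcB) (hKe : S_Gke) (hKx : S_Gkx)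
    (hCnv : S_Cnv) (hSur : S_Sur) (hMx : S_Mxm) (hCp : S_Cpk) (hP2 : S_P2k)
    (hW : S_kW) (M : ModsY) : FinJ := by
  refine ⟨MMk, mmk_meagre hMx, ?_⟩
  intro n₀ G₀ hG₀ p m₀ r₀ b₀ hr
  exact finJ_of' hI hDcA hDcB hCp hP2 hW M G₀
    (fun n => dc_of_fac hDcA hKe hKx hCnv hSur (hG₀ n)) p m₀ r₀ b₀ hr

end SEY
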