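import Pool.Agent.Lib.SE.Y.Main
import Pool.Agent.Lib.SE.L.FnM

/-!
# PROJECT SE-Y: jointly very general branch points (helper64)
-/

set_option autoImplicit false

open Module MeasureTheory Topology

noncomputable section

namespace SEY

open HC HC.E HC.SE SEB SEQ SEG

/-- **Jnt.** -/
theorem tJnt : SEL.S_Jnt := by
  refine ⟨MM2, tM2, ?_⟩
  intro m r b m' r' b' s s' h hr hr' hW hW' hc hc' T T' N N' D D' hD hD'
  exact ind_of_mm2 h hr hW hr' hW' hc hc' N N' D D' hD hD'

/-- **FinM** for the class `Fac`. -/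
theorem tFinM : SEL.FinM SEL.Fac := SEL.finM_fac tJnt

end SEY
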