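import Pool.Agent.Lib.SE.Y.Asm

/-!
# PROJECT SE-Y: the meagre sets for pairs (helper64)
-/

set_option autoImplicit false

open Module MeasureTheory Topology

noncomputable section

namespace SEY

open HC HC.E HC.SE SEB SEQ SEG

/-- The meagre sets for pairs of covers. -/
def MM2 (m r : ℕ) (b : Fin (r + 1) → ℕ) (m' r' : ℕ) (b' : Fin (r' + 1) → ℕ) :
    Set ((Fin (r + 1) → ℂ) × (Fin (r' + 1) → ℂ)) :=
  open Classical in
  if (3 ≤ r ∧ HypW m r b) ∧ 3 ≤ r' ∧ HypW m' r' b' then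
    ({x | x.1 ∈ MMx m r b} ∪ {x | x.2 ∈ MMx m' r' b'}) ∪ {x | ¬ In2 m r b m' r' b' x} else ∅

/-- They are meagre. -/
theorem mm2_meagre (M : ModsY) (m r : ℕ) (b : Fin (r + 1) → ℕ) (m' r' : ℕ)
    (b' : Fin (r' + 1) → ℕ) : IsMeagre (MM2 m r b m' r' b') := by
  classical
  rw [MM2]
  split_ifs with h
  · obtain ⟨-, -, hP1, hP2⟩ := M.kP
    exact ((hP1 r r' _ (SEB.tMx m r b)).union (hP2 r r' _ (SEB.tMx m' r' b'))).union
      (pair2 M m r b m' r' b' h.1.1 h.1.2 h.2.1 h.2.2)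
  · exact IsMeagre.empty

/-- Outside `MM2` the covers are independent. -/
theorem ind_of_mm2 {m r : ℕ} {b : Fin (r + 1) → ℕ} {m' r' : ℕ} {b' : Fin (r' + 1) → ℕ}
    {s : Fin (r + 1) → ℂ} {s' : Fin (r' + 1) → ℂ} (h : (s, s') ∉ MM2 m r b m' r' b')
    (hr : 3 ≤ r) (hW : HypW m r b) (hr' : 3 ≤ r') (hW' : HypW m' r' b') (hc : IsCov m s b)
    (hc' : IsCov m' s' b') {T T' : AV} (N : New T m s b) (N' : New T' m' s' b') (D : Cyc T m)
    (D' : Cyc T' m') (hD : D.Z = N.Z) (hD' : D'.Z = N'.Z) : Ind D D' := by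
  rw [MM2, if_pos ⟨⟨hr, hW⟩, hr', hW'⟩, Set.mem_union, Set.mem_union, not_or, not_or] at h
  obtain ⟨⟨h1, h2⟩, h3⟩ := h
  have h4 : In2 m r b m' r' b' (s, s') := not_not.1 h3
  exact h4 T hc N D hD (gfw_of_MMx hr hW hc h1 N D hD).1 T' hc' N' D' hD'
    (gfw_of_MMx hr' hW' hc' h2 N' D' hD').1

end SEY
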