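import Pool.Agent.Lib.SE.Y.Spec
import Pool.Agent.Lib.SE.Big.cBa2

/-!
# PROJECT SE-Y, module kB1: the Baire argument, one variable
-/

set_option autoImplicit false

open Module MeasureTheory Topology

noncomputable section

namespace SEY

open HC HC.E HC.SE SEB SEQ SEG

namespace kB1_aux

theorem nd (hN : S_kN) (hCj : S_cCj) (hJx : S_cJx) {m r : ℕ} {b : Fin (r + 1) → ℕ} {u : ℕ}
    (hp : 0 < sg m r b u) (hq : 0 < sg m r b (m - u)) (J₀ : Module.End ℂ (Fin r → ℂ)) :
    IsMeagre {s : Fin (r + 1) → ℂ | Admc m b u s ∧ NDc m b u s ∧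
      ∃ J ∈ Submodule.span ℂ {J₀}, IsJc m b u s J} := by
  obtain ⟨hO, hC⟩ := hCj m r b u
  obtain ⟨C, hCc, hCs⟩ := hC (Submodule.span ℂ {J₀})
  set O : Set (Fin (r + 1) → ℂ) := {s | Admc m b u s ∧ NDc m b u s} with hOd
  have hnd : IsNowhereDense (O ∩ C) := by
    unfold IsNowhereDense
    by_contra hne
    obtain ⟨s₀, hs₀⟩ := Set.nonempty_iff_ne_empty.mpr hne
    have hWo : IsOpen (interior (closure (O ∩ C))) := isOpen_interior
    obtain ⟨s₂, k1, k2⟩ := mem_closure_iff.mp (interior_subset hs₀) _ hWo hs₀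
    have hUo : IsOpen (interior (closure (O ∩ C)) ∩ O) := hWo.inter hO
    have hUC : ∀ s ∈ interior (closure (O ∩ C)) ∩ O, ∀ J, IsJc m b u s J →
        J ∈ Submodule.span ℂ {J₀} := by
      intro s hs
      have h3 : s ∈ C := by
        have h4 : s ∈ closure (O ∩ C) := interior_subset hs.1
        have h5 := closure_mono (Set.inter_subset_right : O ∩ C ⊆ C) h4
        rw [hCc.closure_eq] at h5
        exact h5
      exact (hCs s hs.2.1 hs.2.2).1 h3
    obtain ⟨s, hs, J, hJ, hJn⟩ := hN m r b u _ hp hq hUo ⟨s₂, k1, k2.1⟩ (fun s hs => hs.2) J₀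
    exact hJn (hUC s hs J hJ)
  refine hnd.isMeagre.mono ?_
  rintro s ⟨h1, h2, J, hJg, hJ⟩
  refine ⟨⟨h1, h2⟩, (hCs s h1 h2).2 fun J' hJ' => ?_⟩
  obtain ⟨J2, _, huniq, _⟩ := hJx m r b u s h1 h2
  rw [huniq J' hJ', ← huniq J hJ]
  exact hJg

end kB1_aux

open kB1_aux in
theorem tkB1 : S_kN → S_cCj → S_cJx → S_kB1 := by
  intro hN hCj hJx m r b u hp hq J₁
  have : Countable (cBa2_aux.Al r) := (cBa2_aux.countable_Al r).to_subtype
  have hMe : IsMeagre (⋃ B : cBa2_aux.Al r, {s : Fin (r + 1) → ℂ |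
      Function.Injective (B : Module.End ℂ (Fin r → ℂ)) ∧ Admc m b u s ∧ NDc m b u s ∧
        ∃ J', IsJc m b u s J' ∧ (B : Module.End ℂ (Fin r → ℂ)) * J₁ = J' * B}) := by
    refine isMeagre_iUnion fun B => ?_
    by_cases hi : Function.Injective (B : Module.End ℂ (Fin r → ℂ))
    · have hinv := LinearEquiv.ofInjectiveEndo_right_inv (B : Module.End ℂ (Fin r → ℂ)) hi
      refine (nd hN hCj hJx hp hq ((B : Module.End ℂ (Fin r → ℂ)) * J₁ *
        ((LinearEquiv.ofInjectiveEndo (B : Module.End ℂ (Fin r → ℂ)) hi).symm :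
          Module.End ℂ (Fin r → ℂ)))).mono ?_
      rintro s ⟨_, h1, h2, J', hJ', hB⟩
      refine ⟨h1, h2, J', ?_, hJ'⟩
      have h3 : J' = (B : Module.End ℂ (Fin r → ℂ)) * J₁ *
          ((LinearEquiv.ofInjectiveEndo (B : Module.End ℂ (Fin r → ℂ)) hi).symm :
            Module.End ℂ (Fin r → ℂ)) := by
        rw [hB, mul_assoc, hinv, mul_one]
      rw [← h3]
      exact Submodule.mem_span_singleton_self J'
    · have h1 : {s : Fin (r + 1) → ℂ |
          Function.Injective (B : Module.End ℂ (Fin r → ℂ)) ∧ Admc m b u s ∧ NDc m b u s ∧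
            ∃ J', IsJc m b u s J' ∧ (B : Module.End ℂ (Fin r → ℂ)) * J₁ = J' * B} = ∅ := by
        ext s
        constructor
        · rintro ⟨h, _⟩
          exact absurd h hi
        · intro h
          exact absurd h (Set.notMem_empty s)
      rw [h1]
      exact IsMeagre.empty
  refine hMe.mono ?_
  rintro s ⟨h1, h2, B, ⟨h3, h4⟩, J', h5, h6⟩
  exact Set.mem_iUnion.2 ⟨⟨B, h4⟩, h3, h1, h2, J', h5, h6⟩

end SEY
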