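import Pool.Agent.Lib.SE.Y.Spec
import Pool.Agent.Lib.SE.Big.Main3

/-!
# PROJECT SE-Y, module kC: coordinates of the covers
-/

set_option autoImplicit false

open Module MeasureTheory

noncomputable section

namespace SEY

open HC HC.E HC.SE SEB SEQ SEG

namespace kC_aux

/-- From the coordinates `v` to the period vectors: the two descriptions of `J` agree. -/
theorem isJc_of (hBas : S_Bas) {T : AV} {m r : ℕ} (hm : 3 ≤ m) {s : Fin (r + 1) → ℂ}
    {b : Fin (r + 1) → ℕ} (D : Cyc T m) (v : Fin r → T.V)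
    (h1 : ∀ u : (ZMod m)ˣ, ∀ f : Polynomial ℂ,
      f.degree < (sg m r b (u : ZMod m).val : WithBot ℕ) →
      ∃ a ∈ Ws10 D u, ∀ k, a (v k) = Pc m b (u : ZMod m).val s f k)
    (u : (ZMod m)ˣ) (J : Module.End ℂ (Fin r → ℂ)) (hJ : IsJv D v u J) :
    IsJc m b (u : ZMod m).val s J := by
  refine ⟨fun f hf => ?_, fun g hg => ?_⟩
  · obtain ⟨a, ha, hak⟩ := h1 u f hf
    have e1 : (fun k => a (v k)) = Pc m b (u : ZMod m).val s f := funext hak
    have h2 := hJ a ha.1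
    rw [e1] at h2
    rw [h2]
    funext k
    rw [ha.2, hak]
    rfl
  · have hnv := Hit_aux.neg_val hm u
    rw [← hnv] at hg
    obtain ⟨a, ha, hak⟩ := h1 (-u) g hg
    rw [hnv] at hak
    obtain ⟨-, -, -, -, hcj⟩ := hBas T m D hm
    obtain ⟨c, hc, hca⟩ := hcj (-u) a ha.1
    rw [neg_neg] at hc
    have e1 : (fun k => c (v k)) = star (Pc m b (m - (u : ZMod m).val) s g) := by
      funext k
      rw [hca, hak]
      rfl
    have h2 := hJ c hc
    rw [e1] at h2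
    rw [h2]
    funext k
    rw [hca, ha.2, map_mul, Complex.conj_I, hak]
    rfl

theorem main (M : Mods) (M5 : Mods5) : S_kC := by
  intro m r b hr hu
  obtain ⟨u, hum, huc, hp⟩ := hu
  by_cases hex : ∃ s : Fin (r + 1) → ℂ, Inc s ∧ IsCov m s b
  · obtain ⟨s₀, hs₀, hc₀⟩ := hex
    have hK : ∀ u < m, u.Coprime m → Exq (mu m b u) ∧ ∀ n : ℤ, ∑ j, mu m b u j ≠ n :=
      fun u h1 h2 => ⟨(M5.Kap m r b u s₀ ⟨hs₀, hc₀, h1, h2⟩).2.1,
        (M5.Kap m r b u s₀ ⟨hs₀, hc₀, h1, h2⟩).2.2.1⟩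
    have hmN : IsMeagre (⋃ v : {v : ℕ // v < m ∧ v.Coprime m},
        {s : Fin (r + 1) → ℂ | Inc s ∧ ¬ Nj (mu m b v.1) s}) :=
      isMeagre_iUnion fun v => M5.N r _ (hK v.1 v.2.1 v.2.2).1
    refine ⟨_, isMeagre_union hmN (M5.AI r _ (hK u hum huc).1 (hK u hum huc).2), ?_⟩
    intro s hs hbad hc T N D hD
    rw [Set.mem_union, not_or] at hbad
    obtain ⟨hb0, hb1⟩ := hbad
    have hm : 3 ≤ m := hc.1
    have hNj : ∀ v < m, v.Coprime m → Nj (mu m b v) s := by
      intro v h1 h2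
      by_contra h3
      exact hb0 (Set.mem_iUnion.2 ⟨⟨v, h1, h2⟩, hs, h3⟩)
    have hAdm : Admc m b u s := ⟨hs, hc, hum, huc⟩
    have hAI : AInd (fun k : Fin r => Ic (mu m b u) s k fun x => (1 : Polynomial ℂ).eval x) := by
      by_contra h
      exact hb1 ⟨hs, h⟩
    obtain ⟨w, hw⟩ := exists_unit hum huc
    obtain ⟨B, hB⟩ := N.dif u hum huc 0 (sum_lt_of_sg_pos hp)
    have hBZ := M5.Bf T m r s b hc N u 0 B hB
    obtain ⟨v, hv, hvP⟩ := M5.Loop T m r s b hs hc N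
    have hBv : ∀ k, B (v k) = Pc m b u s 1 k := by
      refine hvP u hum huc 1 B hBZ ?_
      intro x hx y hy
      rw [hB x hx y hy, pow_zero, Polynomial.eval_one]
    have hBW : (B.restrictScalars ℝ : Frm T) ∈ Ws D w := by
      intro x
      have := hBZ x
      change B (D.Z x) = zet m w * B x
      rw [hD, this, zet, hw]
    have hAI2 : AInd (fun k => (B.restrictScalars ℝ : Frm T) (v k)) := by
      refine AInd.mul hAI fun k => ⟨kap m b u k, ?_, ?_, ?_⟩
      · exact ((M5.Kap m r b u s hAdm).2.2.2 k).1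
      · exact ((M5.Kap m r b u s hAdm).2.2.2 k).2
      · change B (v k) = _
        rw [hBv k, Pc]
    obtain ⟨hinj, hmat⟩ := M5.EB T m r D hm hr N.dim w _ hBW v hv hAI2
    have hHod := M5.Hod T m r s b hs hc hNj N D hD v hvP
    refine ⟨v, ⟨hinj, hmat⟩, fun u' => ⟨?_, ?_⟩⟩
    · exact (M5.Hit T m r s b D hs hc hNj hr N.dim v hinj hmat hHod u').1
    · intro J hJ
      exact isJc_of M.Bas hm D v (fun u => (hHod u).1) u' J hJ
  · exact ⟨∅, IsMeagre.empty, fun s hs _ hc => absurd ⟨s, hs, hc⟩ hex⟩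

end kC_aux

theorem tkC : S_kC := kC_aux.main mods mods5

end SEY
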