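import Pool.Agent.Lib.SE.Y.Spec
import Pool.Agent.Lib.SE.Q.BAll

/-!
# PROJECT SE-Y, module kI: `J` in coordinates
-/

set_option autoImplicit false

noncomputable section

open Module

namespace SEY

open HC HC.E HC.SE SEB SEQ SEG

namespace kI_aux

variable {T : AV} {m r : ℕ} (D : Cyc T m) (v : Fin r → T.V) (u : (ZMod m)ˣ)

/-- the values on the vectors `v_k` -/
def Phi : Ws D u →ₗ[ℂ] (Fin r → ℂ) where
  toFun a k := (a : Frm T) (v k)
  map_add' _ _ := rfl
  map_smul' _ _ := rfl

/-- composition with the multiplication by `i` on an eigenspace -/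
def Imap : Ws D u →ₗ[ℂ] Ws D u where
  toFun a := ⟨pre (mulI T) (a : Frm T), fun w => by
    show (a : Frm T) (Complex.I • D.Z w) = zet m u * (a : Frm T) (Complex.I • w)
    rw [← map_smul]
    exact a.2 _⟩
  map_add' _ _ := by
    apply Subtype.ext
    show pre (mulI T) _ = _
    rw [Submodule.coe_add, map_add]
    rfl
  map_smul' _ _ := by
    apply Subtype.ext
    show pre (mulI T) _ = _
    rw [Submodule.coe_smul, map_smul]
    rfl

end kI_aux

open kI_aux in
theorem tkI : S_kI := by
  intro T m r D hm hr v hv u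
  have hdim : finrank ℂ (Ws D u) = r := (dim_all T m r D hm hr u).1
  have hinj : Function.Injective (Phi D v u) := by
    rw [← LinearMap.ker_eq_bot, LinearMap.ker_eq_bot']
    intro a ha
    apply Subtype.ext
    exact hv.inj u a a.2 (fun k => congrFun ha k)
  have hfin : finrank ℂ (Ws D u) = finrank ℂ (Fin r → ℂ) := by
    rw [hdim, Module.finrank_fin_fun]
  have : FiniteDimensional ℂ (Ws D u) := FiniteDimensional.of_injective (Phi D v u) hinj
  let e := LinearEquiv.ofInjectiveOfFinrankEq (Phi D v u) hinj hfin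
  have he : ∀ a, e a = Phi D v u a := fun a => rfl
  refine ⟨e.toLinearMap ∘ₗ Imap D u ∘ₗ e.symm.toLinearMap, ?_, ?_⟩
  · intro a ha
    have h1 : (fun k => a (v k)) = e ⟨a, ha⟩ := rfl
    rw [h1]
    simp only [LinearMap.coe_comp, LinearEquiv.coe_coe, Function.comp_apply,
      LinearEquiv.symm_apply_apply]
    rfl
  · intro J' hJ'
    apply LinearMap.ext
    intro x
    obtain ⟨a, rfl⟩ := e.surjective x
    simp only [LinearMap.coe_comp, LinearEquiv.coe_coe, Function.comp_apply,
      LinearEquiv.symm_apply_apply]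
    exact hJ' a a.2

end SEY
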