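import Pool.Agent.Lib.SE.Y.Spec

/-!
# PROJECT SE-Y, module kN: `J(s)` is not constant (helper17)
-/

set_option autoImplicit false

open Module MeasureTheory Topology

noncomputable section

namespace SEY

open HC HC.E HC.SE SEB SEQ SEG

theorem tkN : S_cN → S_cKap → S_cPv → S_cJx → S_cDj → S_cRk1 → S_Sg → S_kN := by
  classical
  intro hN hKap _ hJx hDj hRk _ m r b u U hp hq hUo hUne hU J₀
  by_contra hcon
  have hcon' : ∀ s ∈ U, ∀ J, IsJc m b u s J → J ∈ Submodule.span ℂ {J₀} :=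
    fun s hs J hJ => by_contra fun h => hcon ⟨s, hs, J, hJ, h⟩
  obtain ⟨s₂, hs₂⟩ := hUne
  obtain ⟨-, c2, -, -⟩ := hKap m r b u s₂ (hU s₂ hs₂).1
  have hde : Dense ({s : Fin (r + 1) → ℂ | Inc s ∧ ¬ Nj (mu m b u) s})ᶜ :=
    dense_of_mem_residual (hN r (mu m b u) c2)
  obtain ⟨s, hs, hs'⟩ := hde.inter_open_nonempty _ hUo ⟨s₂, hs₂⟩
  have hadm := (hU s hs).1
  have hnd := (hU s hs).2
  have hNj : Nj (mu m b u) s := by
    by_contra hn
    exact hs' ⟨hadm.1, hn⟩
  obtain ⟨J, hJ, -⟩ := hJx m r b u s hadm hnd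
  obtain ⟨ξ, h1, h2, h3⟩ := hRk m r b u s hadm hnd hNj J hJ
  have hξ : ξ 0 ≠ 0 := by
    intro h0
    have hcard : (Finset.univ.filter fun j => (Pi.single 0 1 : Fin (r + 1) → ℂ) j ≠ 0).card ≤
        sg m r b (m - u) := by
      have hsub : (Finset.univ.filter fun j => (Pi.single 0 1 : Fin (r + 1) → ℂ) j ≠ 0) ⊆
          {0} := by
        intro j hj
        rw [Finset.mem_filter] at hj
        rw [Finset.mem_singleton]
        by_contra hne
        exact hj.2 (Pi.single_eq_of_ne hne _)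
      exact (Finset.card_le_card hsub).trans (by rw [Finset.card_singleton]; exact hq)
    have hsum : ∑ j, (Pi.single 0 1 : Fin (r + 1) → ℂ) j • ξ j = 0 := by
      rw [Finset.sum_eq_single 0 (fun j _ hj => by rw [Pi.single_eq_of_ne hj, zero_smul])
        (fun h => absurd (Finset.mem_univ _) h), h0, smul_zero]
    have := congrFun (h3 _ hcard hsum) 0
    rw [Pi.single_eq_same, Pi.zero_apply] at this
    exact one_ne_zero this
  obtain ⟨a, ha⟩ := h2 0
  obtain ⟨D, hDg, hD⟩ := hDj m r b u U hUo hU (Submodule.span ℂ {J₀}) hcon' s hs J hJ a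
  obtain ⟨c, hc⟩ := Submodule.mem_span_singleton.1 (hcon' s hs J hJ)
  obtain ⟨d, hd⟩ := Submodule.mem_span_singleton.1 hDg
  have hdeg : (1 : Polynomial ℂ).degree < (sg m r b u : WithBot ℕ) := by
    rw [Polynomial.degree_one]
    exact_mod_cast hp
  have hDP : D (Pc m b u s 1) = ξ 0 := by
    rw [hD.1 1 hdeg, ha 1 hdeg, Polynomial.eval_one, one_smul]
  have hJP : J (Pc m b u s 1) = Complex.I • Pc m b u s 1 := hJ.1 1 hdeg
  have hcD : c • ξ 0 = d • Complex.I • Pc m b u s 1 := by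
    rw [← hDP, ← hJP, ← hd, ← hc, LinearMap.smul_apply, LinearMap.smul_apply, smul_comm]
  have hJc : c • J (ξ 0) = Complex.I • c • ξ 0 := by
    rw [← map_smul, hcD, map_smul, map_smul, hJP, smul_comm d Complex.I]
  rw [h1 0] at hJc
  have h4 : (c * (2 * Complex.I)) • ξ 0 = 0 := by
    have h5 : c • Complex.I • ξ 0 + c • Complex.I • ξ 0 = 0 := by
      have h6 : c • -Complex.I • ξ 0 = -(c • Complex.I • ξ 0) := by
        rw [neg_smul, smul_neg]
      rw [h6, smul_comm Complex.I c] at hJc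
      rw [← sub_neg_eq_add, hJc, sub_self]
    rw [← h5, ← two_smul ℂ, smul_smul, smul_smul]
    ring_nf
  rcases smul_eq_zero.1 h4 with h | h
  · have hc0 : c = 0 := by
      rcases mul_eq_zero.1 h with h | h
      · exact h
      · exact absurd h (mul_ne_zero two_ne_zero Complex.I_ne_zero)
    rw [hc0, zero_smul] at hc
    have h7 := h1 0
    rw [← hc, LinearMap.zero_apply] at h7
    exact hξ ((smul_eq_zero.1 h7.symm).resolve_left (neg_ne_zero.2 Complex.I_ne_zero))
  · exact hξ h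

end SEY
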