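import Pool.Agent.Lib.SE.Y.Spec

/-!
# PROJECT SE-Y, module `kP`: projections and meagre sets (helper47)
-/

set_option autoImplicit false

open Module MeasureTheory Topology

noncomputable section

namespace SEY

open HC HC.E HC.SE SEB SEQ SEG

namespace kP_aux

variable {q : ℕ} {r : Fin q → ℕ}

/-- Two coordinates. -/
def pr2 (i j : Fin q) : (∀ i, Fin (r i + 1) → ℂ) →L[ℂ] (Fin (r i + 1) → ℂ) × (Fin (r j + 1) → ℂ) :=
  (ContinuousLinearMap.proj (R := ℂ) (φ := fun i => Fin (r i + 1) → ℂ) i).prod
    (ContinuousLinearMap.proj (R := ℂ) (φ := fun i => Fin (r i + 1) → ℂ) j)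

theorem pr2_apply (i j : Fin q) (s : ∀ i, Fin (r i + 1) → ℂ) :
    pr2 i j s = (s i, s j) := rfl

theorem pr2_surj {i j : Fin q} (hij : i ≠ j) :
    Function.Surjective (pr2 (r := r) i j) := by
  rintro ⟨x, y⟩
  refine ⟨Function.update (Function.update 0 i x) j y, ?_⟩
  rw [pr2_apply, Function.update_self, Function.update_of_ne hij, Function.update_self]

end kP_aux

open kP_aux in
theorem tkP : S_kP := by
  refine ⟨?_, ?_, ?_, ?_⟩
  · intro q r i A hA
    exact hA.preimage_of_isOpenMap (continuous_apply i) (isOpenMap_eval i)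
  · intro q r i j A hij hA
    exact hA.preimage_of_isOpenMap (pr2 (r := r) i j).continuous
      ((pr2 (r := r) i j).isOpenMap (pr2_surj hij))
  · intro r r' A hA
    exact hA.preimage_of_isOpenMap continuous_fst isOpenMap_fst
  · intro r r' A hA
    exact hA.preimage_of_isOpenMap continuous_snd isOpenMap_snd

end SEY
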