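import Pool.Agent.Lib.SE.Y.Spec
import Pool.Agent.Lib.SE.Big.cSo

/-!
# PROJECT SE-Y, module `kS`: sorting pairs (helper47)
-/

set_option autoImplicit false

open Module MeasureTheory Topology

noncomputable section

namespace SEY

open HC HC.E HC.SE SEB SEQ SEG

namespace kS_aux

theorem sorted {r : ℕ} {s : Fin (r + 1) → ℂ} (h : Function.Injective fun j => (s j).re) :
    Inc (s ∘ Tuple.sort fun j => (s j).re) :=
  (Tuple.monotone_sort fun j => (s j).re).strictMono_of_injective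
    (h.comp (Tuple.sort fun j => (s j).re).injective)

theorem not_inj {r : ℕ} {s : Fin (r + 1) → ℂ} (h : ¬ Function.Injective fun j => (s j).re) :
    s ∈ ⋃ p : {p : Fin (r + 1) × Fin (r + 1) // p.1 ≠ p.2},
      {s : Fin (r + 1) → ℂ | (s p.1.1).re = (s p.1.2).re} := by
  simp only [Function.Injective] at h
  push Not at h
  obtain ⟨i, j, hij, hne⟩ := h
  exact Set.mem_iUnion.2 ⟨⟨(i, j), hne⟩, hij⟩

theorem meagre_dg (r : ℕ) : IsMeagre (⋃ p : {p : Fin (r + 1) × Fin (r + 1) // p.1 ≠ p.2},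
      {s : Fin (r + 1) → ℂ | (s p.1.1).re = (s p.1.2).re}) :=
  isMeagre_iUnion fun p => cSo_aux.meagre_eq p.2

/-- The permutation of coordinates. -/
def ph {r : ℕ} (σ : Equiv.Perm (Fin (r + 1))) : (Fin (r + 1) → ℂ) ≃ₜ (Fin (r + 1) → ℂ) :=
  (Homeomorph.piCongrLeft (Y := fun _ : Fin (r + 1) => ℂ) σ).symm

theorem ph_apply {r : ℕ} (σ : Equiv.Perm (Fin (r + 1))) (s : Fin (r + 1) → ℂ) :
    ph σ s = s ∘ σ := rfl

theorem meagre_perm2 {r r' : ℕ} (σ : Equiv.Perm (Fin (r + 1))) (σ' : Equiv.Perm (Fin (r' + 1)))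
    {A : Set ((Fin (r + 1) → ℂ) × (Fin (r' + 1) → ℂ))} (hA : IsMeagre A) :
    IsMeagre {x : (Fin (r + 1) → ℂ) × (Fin (r' + 1) → ℂ) | (x.1 ∘ σ, x.2 ∘ σ') ∈ A} :=
  hA.preimage_of_isOpenMap ((ph σ).prodCongr (ph σ')).continuous
    ((ph σ).prodCongr (ph σ')).isOpenMap

end kS_aux

open kS_aux in
theorem tkS : S_kS := by
  intro r r' A hA
  have h1 := (meagre_dg r).preimage_of_isOpenMap
    (continuous_fst (X := Fin (r + 1) → ℂ) (Y := Fin (r' + 1) → ℂ)) isOpenMap_fst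
  have h2 := (meagre_dg r').preimage_of_isOpenMap
    (continuous_snd (X := Fin (r + 1) → ℂ) (Y := Fin (r' + 1) → ℂ)) isOpenMap_snd
  have h3 : IsMeagre (⋃ σ : Equiv.Perm (Fin (r + 1)), ⋃ σ' : Equiv.Perm (Fin (r' + 1)),
      {x : (Fin (r + 1) → ℂ) × (Fin (r' + 1) → ℂ) | (x.1 ∘ σ, x.2 ∘ σ') ∈ A σ σ'}) :=
    isMeagre_iUnion fun σ => isMeagre_iUnion fun σ' => meagre_perm2 σ σ' (hA σ σ')
  refine ((h1.union h2).union h3).mono ?_
  intro x hx
  by_cases hi : Function.Injective fun j => (x.1 j).re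
  · by_cases hi' : Function.Injective fun j => (x.2 j).re
    · right
      exact Set.mem_iUnion.2 ⟨_, Set.mem_iUnion.2 ⟨_, hx _ _ (sorted hi) (sorted hi')⟩⟩
    · left
      right
      exact not_inj hi'
  · left
    left
    exact not_inj hi

end SEY
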