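import Pool.Agent.Lib.SE.Y.Spec
import Pool.Agent.Lib.SE.Big.EB
import Pool.Agent.Lib.SE.Big.Dim
import Pool.Agent.Lib.SE.Big.Pj
import Pool.Agent.Lib.SE.Big.Tw
import Pool.Agent.Lib.SE.Big.Bas
import Pool.Agent.Lib.SE.Big.Tr

/-!
# PROJECT SE-Y, module kV: coordinates exist (helper63)

The evaluations at the elements of the lattice span the dual of one eigenspace `Ws D 1` (of dimension
`r`); a basis of evaluations gives the vectors `v_k`.
-/

set_option autoImplicit false

open Module

noncomputable section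

namespace SEY

open HC HC.E HC.SE SEB SEQ SEG

namespace kV_aux

open SEB.Per_aux

variable {T : AV} {m r : ℕ}

/-- The evaluation at a vector, on an eigenspace. -/
def ev (D : Cyc T m) (u : (ZMod m)ˣ) (y : T.V) : Module.Dual ℂ (Ws D u) where
  toFun a := (a : Frm T) y
  map_add' _ _ := rfl
  map_smul' _ _ := rfl

/-- The evaluations at the elements of the lattice span the dual. -/
theorem ev_span [FiniteDimensional ℂ (Frm T)] (D : Cyc T m) (u : (ZMod m)ˣ) :
    ⊤ ≤ Submodule.span ℂ ((ev D u) '' (T.L : Set T.V)) := by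
  have h1 : (Submodule.span ℂ ((ev D u) '' (T.L : Set T.V))).dualCoannihilator = ⊥ := by
    rw [Submodule.eq_bot_iff]
    intro a ha
    rw [Submodule.mem_dualCoannihilator] at ha
    apply Subtype.ext
    exact EB_aux.zero_of_lat _ fun y hy => ha _ (Submodule.subset_span ⟨y, hy, rfl⟩)
  have h2 := Subspace.dualCoannihilator_dualAnnihilator_eq
    (W := Submodule.span ℂ ((ev D u) '' (T.L : Set T.V)))
  rw [h1, Submodule.dualAnnihilator_bot] at h2
  rw [← h2]

/-- A basis of evaluations. -/
theorem ex_v [FiniteDimensional ℂ (Frm T)] (D : Cyc T m) (u : (ZMod m)ˣ)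
    (hd : finrank ℂ (Ws D u) = r) :
    ∃ v : Fin r → T.V, (∀ k, v k ∈ T.L) ∧ LinearIndependent ℂ fun k => ev D u (v k) := by
  have hs := ev_span D u
  let b := Basis.ofSpan hs
  have hsub : Set.range b ⊆ (ev D u) '' (T.L : Set T.V) := Basis.ofSpan_subset hs
  have : Fintype ((linearIndepOn_empty ℂ (id : Module.Dual ℂ (Ws D u) → _)).extend
    (Set.empty_subset ((ev D u) '' (T.L : Set T.V)))) := FiniteDimensional.fintypeBasisIndex b
  have hc : Fintype.card ((linearIndepOn_empty ℂ (id : Module.Dual ℂ (Ws D u) → _)).extend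
    (Set.empty_subset ((ev D u) '' (T.L : Set T.V)))) = r := by
    rw [← Module.finrank_eq_card_basis b, Subspace.dual_finrank_eq, hd]
  let e := Fintype.equivFinOfCardEq hc
  have h1 : ∀ k : Fin r, ∃ y ∈ (T.L : Set T.V), ev D u y = b (e.symm k) := fun k =>
    hsub ⟨_, rfl⟩
  choose v hv hvb using h1
  refine ⟨v, hv, ?_⟩
  have h2 : (fun k => ev D u (v k)) = fun k => b (e.symm k) := funext hvb
  rw [h2]
  exact b.linearIndependent.comp _ e.symm.injective

/-- The elements `Z^i v_k` are independent. -/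
theorem indep (hm : 0 < m) (D : Cyc T m) (u : (ZMod m)ˣ) (v : Fin r → T.V)
    (hv : ∀ k, v k ∈ T.L) (hA : LinearIndependent ℂ fun k => ev D u (v k)) :
    LinearIndependent ℤ (wL D v hv) := by
  rw [Fintype.linearIndependent_iff]
  intro g hg
  have h1 := wL_sum D v hv g
  rw [hg] at h1
  have h3 := Fintype.linearIndependent_iff.1 hA (fun k => Polynomial.aeval (zet m u)
      (∑ i : Fin m.totient, Polynomial.C (g (i, k)) * Polynomial.X ^ (i : ℕ))) (by
    apply LinearMap.ext
    intro a
    have h2 := congrArg (a : Frm T) h1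
    rw [map_sum, Submodule.coe_zero, map_zero] at h2
    rw [LinearMap.sum_apply, LinearMap.zero_apply, h2]
    refine Finset.sum_congr rfl fun k _ => ?_
    rw [B_aeval a.2, LinearMap.smul_apply, smul_eq_mul]
    rfl)
  rintro ⟨i, k⟩
  refine low_zero hm u (fun i => g (i, k)) ?_ i
  have h4 := h3 k
  simp only [map_sum, map_mul, map_pow, Polynomial.aeval_X, Polynomial.aeval_C] at h4
  rw [← h4]
  rfl

/-- Every element of the lattice is in the rational span. -/
theorem insp (D : Cyc T m) (v : Fin r → T.V) (hv : ∀ k, v k ∈ T.L)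
    (hI : LinearIndependent ℤ (wL D v hv))
    (hd : 2 * finrank ℂ T.V = r * Nat.totient m) (y : T.V) (hy : y ∈ T.L) :
    ∃ N : ℤ, N ≠ 0 ∧ ∃ a : Fin r → Polynomial ℤ,
      N • y = ∑ k, (Polynomial.aeval D.Z (a k)) (v k) := by
  have : Module.Free ℤ T.L := ZLattice.module_free ℝ T.L
  have : Module.Finite ℤ T.L := ZLattice.module_finite ℝ T.L
  let f : Option (Fin m.totient × Fin r) → T.L := fun o => o.elim ⟨y, hy⟩ (wL D v hv)
  have hf : ¬ LinearIndependent ℤ f := by
    intro h
    have h1 := h.fintype_card_le_finrank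
    rw [Fintype.card_option, Fintype.card_prod, Fintype.card_fin, Fintype.card_fin,
      ZLattice.rank ℝ T.L, finrank_real_of_complex, hd, mul_comm] at h1
    omega
  rw [Fintype.not_linearIndependent_iff] at hf
  obtain ⟨g, hg, o, ho⟩ := hf
  rw [Fintype.sum_option] at hg
  have hn : g none ≠ 0 := by
    intro h0
    rw [h0, zero_smul, zero_add] at hg
    have h1 := Fintype.linearIndependent_iff.1 hI (fun q => g (some q)) hg
    cases o with
    | none => exact ho h0
    | some q => exact ho (h1 q)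
  refine ⟨g none, hn, fun k => - ∑ i : Fin m.totient,
    Polynomial.C (g (some (i, k))) * Polynomial.X ^ (i : ℕ), ?_⟩
  have h2 := wL_sum D v hv fun q => g (some q)
  have h3 : g none • (⟨y, hy⟩ : T.L) = - ∑ q, g (some q) • wL D v hv q :=
    eq_neg_of_add_eq_zero_left hg
  have h4 := congrArg (fun w : T.L => (w : T.V)) h3
  simp only [Submodule.coe_smul, Submodule.coe_neg] at h4
  rw [h4, h2, ← Finset.sum_neg_distrib]
  refine Finset.sum_congr rfl fun k _ => ?_
  rw [map_neg, LinearMap.neg_apply]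

end kV_aux

open kV_aux SEB.Per_aux in
/-- COORDINATES EXIST. -/
theorem tkV : S_kV := by
  classical
  intro T m r D hm3 hd
  have hm : 0 < m := by omega
  have : FiniteDimensional ℂ (Frm T) := SEB.Tr_aux.fin_frm T
  have hdim : finrank ℂ (Ws D 1) = r := (tDim tPj tTw (tBas tPj) T m r D hm3 hd 1).1
  obtain ⟨v, hv, hA⟩ := ex_v D 1 hdim
  have hI := indep hm D 1 v hv hA
  refine ⟨v, fun u a ha hak => ?_, fun X hX hXZ => ?_⟩
  · refine EB_aux.zero_of_lat a fun y hy => ?_
    obtain ⟨N, hN, b, hb⟩ := insp D v hv hI hd y hy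
    have h1 := congrArg a hb
    rw [map_zsmul, map_sum] at h1
    have h2 : ∑ k, a ((Polynomial.aeval D.Z (b k)) (v k)) = 0 :=
      Finset.sum_eq_zero fun k _ => by rw [B_aeval ha, hak, mul_zero]
    rw [h2, zsmul_eq_mul] at h1
    exact (mul_eq_zero.1 h1).resolve_left (Int.cast_ne_zero.2 hN)
  · have h1 : ∀ k, ∃ (P : ℤ) (a : Fin r → Polynomial ℤ), P ≠ 0 ∧
        P • X (v k) = ∑ j, (Polynomial.aeval D.Z (a j)) (v j) := by
      intro k
      obtain ⟨N, hN, hNL⟩ := hX (v k) (hv k)
      obtain ⟨M, hM, a, ha⟩ := insp D v hv hI hd (N • X (v k)) hNL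
      refine ⟨M * N, a, mul_ne_zero hM (Int.natCast_ne_zero.2 hN), ?_⟩
      rw [← ha, mul_smul, natCast_zsmul]
    choose P a hP ha using h1
    refine ⟨∏ k, P k, fun k j => Polynomial.C (∏ i ∈ Finset.univ.erase k, P i) * a k j,
      Finset.prod_ne_zero_iff.2 fun k _ => hP k, fun k => ?_⟩
    rw [← Finset.mul_prod_erase Finset.univ P (Finset.mem_univ k), mul_comm, mul_smul, ha k,
      Finset.smul_sum]
    refine Finset.sum_congr rfl fun j _ => ?_
    rw [map_mul, Polynomial.aeval_C, Module.End.mul_apply, algebraMap_int_eq, eq_intCast,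
      Module.End.intCast_apply]

end SEY
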