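import Pool.Agent.Lib.SE.Y.M2
import Pool.Agent.Lib.SE.Y.kV
import Pool.Agent.Lib.SE.Y.kI
import Pool.Agent.Lib.SE.Y.kC
import Pool.Agent.Lib.SE.Y.kA
import Pool.Agent.Lib.SE.Y.kT
import Pool.Agent.Lib.SE.Y.kN
import Pool.Agent.Lib.SE.Y.kB1
import Pool.Agent.Lib.SE.Y.kB2
import Pool.Agent.Lib.SE.Y.kS
import Pool.Agent.Lib.SE.Y.kP

/-!
# PROJECT SE-Y: the modules (helper64)
-/

set_option autoImplicit false

open Module MeasureTheory Topology

noncomputable section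

namespace SEY

open HC HC.E HC.SE SEB SEQ SEG

theorem kN' : S_kN := tkN cN' cKap' cPv' cJx' cDj' cRk1' tSg

theorem kB1' : S_kB1 := tkB1 kN' cCj' cJx'

theorem kB2' : S_kB2 := tkB2 kN' cKap' cPv' cC' cI' cJx' cCj'

theorem modsY : ModsY where
  kV := tkV
  kI := tkI
  kC := tkC
  kA := tkA
  kT := tkT
  kB1 := kB1'
  kB2 := kB2'
  kS := tkS
  kP := tkP
  So := tcSo
  Pm := tcPm
  Pn := tPnew tSg (tBas tPj)

/-- The sets `MM2` are meagre. -/
theorem tM2 (m r : ℕ) (b : Fin (r + 1) → ℕ) (m' r' : ℕ) (b' : Fin (r' + 1) → ℕ) :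
    IsMeagre (MM2 m r b m' r' b') := mm2_meagre modsY m r b m' r' b'

end SEY
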