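import Pool.Agent.Lib.SE.Y.Fn

/-!
# PROJECT SE-Y, module kW: symmetry of independence (helper64)
-/

set_option autoImplicit false

open Module

noncomputable section

namespace SEY

open HC HC.E HC.SE SEB SEQ SEG

namespace kW_aux

variable {T T' : AV}

/-- Exchange. -/
def sw (h : Set (Pr2 T' T)) : Set (Pr2 T T') := {X | X.swap ∈ h}

theorem swap_mul (X Y : Pr2 T T') : (X * Y).swap = X.swap * Y.swap := rfl

theorem span_sw (h : Set (Pr2 T' T)) (X : Pr2 T' T) (hX : X ∈ Submodule.span ℝ h) :
    X.swap ∈ Submodule.span ℝ (sw h) := by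
  induction hX using Submodule.span_induction with
  | mem X hX => exact Submodule.subset_span hX
  | zero => exact Submodule.zero_mem _
  | add X Y _ _ h1 h2 => exact Submodule.add_mem _ h1 h2
  | smul c X _ h1 => exact Submodule.smul_mem _ c h1

theorem gg2_sw (h : Set (Pr2 T' T)) (C : Module.End ℂ (Frm T) × Module.End ℂ (Frm T'))
    (hC : C ∈ gg2 (sw h)) : C.swap ∈ gg2 h := by
  unfold gg2 at hC ⊢
  induction hC using Submodule.span_induction with
  | mem C hC =>
    obtain ⟨Y, ⟨X, hX, X', hX', rfl⟩, rfl⟩ := hC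
    exact Submodule.subset_span ⟨(X * X' - X' * X).swap, ⟨X.swap, hX, X'.swap, hX', rfl⟩, rfl⟩
  | zero => exact Submodule.zero_mem _
  | add X Y _ _ h1 h2 => exact Submodule.add_mem _ h1 h2
  | smul c X _ h1 => exact Submodule.smul_mem _ c h1

end kW_aux

open kW_aux in
theorem tkW : S_kW := by
  intro T T' m m' D D' hI h hh s t A B hA hB
  have hh' : HLie2 D D' (sw h) := by
    refine ⟨fun X hX => ?_, fun X hX => ?_, ?_, fun X hX Y hY => ?_, fun x X hX => ?_,
      fun X hX Y hY => ?_, ?_⟩
    · exact (hh.rat _ hX).symm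
    · exact (hh.u _ hX).symm
    · exact hh.zero
    · exact hh.add _ hX _ hY
    · exact hh.smul x _ hX
    · exact hh.br _ hX _ hY
    · exact span_sw h _ hh.J
  obtain ⟨C, hC, h1, h2⟩ := hI (sw h) hh' t s B A hB hA
  exact ⟨C.swap, gg2_sw h C hC, h2, h1⟩

end SEY
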